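import Mathlib
import Pool.Agent.Lib.P4a7640X.Par

/-!
# Natural density instead of logarithmic density: definitions
-/

open Filter MeasureTheory Finset

namespace Pool.Agent.Lib.P4a7640Ces

open Pool.Agent.Lib.P4a7640 Pool.Agent.Lib.P4a7640D

/-- the weighted correlation at scale `N`, natural averages -/
noncomputable def FC (w : ℕ → ℝ) (H : Finset ℕ) (N : ℕ) (y : SS) : ℝ :=
  (∑ n ∈ Icc 1 N, w n * ∏ h ∈ H, sg (rnd y (n + h))) / N

/-- the number of multiples of `d` among `n + h`, `n ≤ N` -/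
lemma card_mult_le (N h : ℕ) {d : ℕ} (hd : 1 ≤ d) :
    (((Icc 1 N).filter fun n => d ∣ n + h).card : ℝ) ≤ (N + h : ℝ) / d := by
  have h1 : ((Icc 1 N).filter fun n => d ∣ n + h).card ≤ (N + h) / d := by
    rw [← Nat.Ioc_filter_dvd_card_eq_div (N + h) d]
    refine Finset.card_le_card_of_injOn (fun n => n + h) (fun n hn => ?_)
      (fun _ _ _ _ h => Nat.add_right_cancel h)
    rw [mem_coe, mem_filter, mem_Icc] at hn
    rw [mem_coe, mem_filter, mem_Ioc]
    refine ⟨⟨?_, ?_⟩, hn.2⟩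
    · show 0 < n + h
      omega
    · show n + h ≤ N + h
      omega
  have hd0 : (0:ℝ) < d := by exact_mod_cast hd
  calc (((Icc 1 N).filter fun n => d ∣ n + h).card : ℝ) ≤ (((N + h) / d : ℕ) : ℝ) := by
        exact_mod_cast h1
    _ ≤ ((N + h : ℕ) : ℝ) / d := Nat.cast_div_le
    _ = (N + h : ℝ) / d := by push_cast; ring

end Pool.Agent.Lib.P4a7640Ces
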