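import Mathlib
import Pool.Agent.Lib.P4a7640Ces.Par
import Pool.Agent.Lib.P4a7640.Dist
import Pool.Agent.Lib.P4a7640.Stable

/-!
# From completely multiplicative functions to multiplicative functions, natural averages
-/

open Filter Finset Topology

namespace Pool.Agent.Lib.P4a7640Ces

open Pool.Agent.Lib.P4a7640

/-- `f` is uncorrelated with `w` in natural density, in all residue classes -/
def VanC (w : ℕ → ℝ) (f : ℕ → ℤˣ) : Prop :=
  ∀ H : Finset ℕ, H.Nonempty → ∀ R b : ℕ, Tendsto (fun N : ℕ =>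
    (∑ n ∈ Icc 1 N, w n * (if n % R = b then 1 else 0) * prodSeq f H n) / (N:ℝ)) atTop (𝓝 0)

lemma sum_BI_le (B : ℕ → Prop) (y m N j : ℕ) :
    ∑ n ∈ Icc 1 N, BI B y m (n + j) ≤ (N + j : ℝ) * EB B y m (N + j) := by
  classical
  have hU : ∀ d : ℕ, 1 ≤ d → (∑ n ∈ Icc 1 N, if d ∣ n + j then (1:ℝ) else 0) ≤
      (N + j : ℝ) * (1 / d) := by
    intro d hd
    rw [Finset.sum_boole]
    refine (card_mult_le N j hd).trans (le_of_eq (by ring))
  have key : ∑ n ∈ Icc 1 N, BI B y m (n + j) ≤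
      ∑ p ∈ (Icc 1 y).filter Nat.Prime, (∑ n ∈ Icc 1 N, if p ^ (m + 1) ∣ n + j then (1:ℝ) else 0) +
      (∑ p ∈ (Ioc y (N + j)).filter Nat.Prime, (∑ n ∈ Icc 1 N, if p ^ 2 ∣ n + j then (1:ℝ) else 0) +
      ∑ p ∈ (Ioc y (N + j)).filter (fun p => p.Prime ∧ B p),
        (∑ n ∈ Icc 1 N, if p ∣ n + j then (1:ℝ) else 0)) := by
    rw [Finset.sum_comm (s := (Icc 1 y).filter Nat.Prime),
      Finset.sum_comm (s := (Ioc y (N + j)).filter Nat.Prime),
      Finset.sum_comm (s := (Ioc y (N + j)).filter (fun p => p.Prime ∧ B p)),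
      ← Finset.sum_add_distrib, ← Finset.sum_add_distrib]
    refine Finset.sum_le_sum fun n hn => ?_
    rw [Finset.mem_Icc] at hn
    have nn : ∀ (s : Finset ℕ) (φ : ℕ → ℕ), 0 ≤ ∑ p ∈ s, if φ p ∣ n + j then (1:ℝ) else 0 := by
      intro s φ
      refine Finset.sum_nonneg fun p _ => ?_
      split_ifs <;> norm_num
    have single : ∀ (s : Finset ℕ) (φ : ℕ → ℕ) (p : ℕ), p ∈ s → φ p ∣ n + j →
        (1:ℝ) ≤ ∑ p ∈ s, if φ p ∣ n + j then (1:ℝ) else 0 := by
      intro s φ p hp hd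
      calc (1:ℝ) = if φ p ∣ n + j then (1:ℝ) else 0 := by rw [if_pos hd]
        _ ≤ _ := Finset.single_le_sum (f := fun p => if φ p ∣ n + j then (1:ℝ) else 0)
            (fun i _ => by
              show 0 ≤ if φ i ∣ n + j then (1:ℝ) else 0
              split_ifs <;> norm_num) hp
    unfold BI
    have n1 := nn ((Icc 1 y).filter Nat.Prime) (fun p => p ^ (m + 1))
    have n2 := nn ((Ioc y (N + j)).filter Nat.Prime) (fun p => p ^ 2)
    have n3 := nn ((Ioc y (N + j)).filter (fun p => p.Prime ∧ B p)) (fun p => p)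
    by_cases hbad : Bad B y m (n + j)
    · rw [if_pos hbad]
      rcases hbad with ⟨p, hp, hpy, hd⟩ | ⟨p, hp, hpy, hd⟩ | ⟨p, hp, hpy, hB, hd⟩
      · have := single ((Icc 1 y).filter Nat.Prime) (fun p => p ^ (m + 1)) p
          (by rw [Finset.mem_filter, Finset.mem_Icc]; exact ⟨⟨hp.pos, hpy⟩, hp⟩) hd
        linarith
      · have hpN : p ≤ N + j := by
          have h1 : p ^ 2 ≤ n + j := Nat.le_of_dvd (by omega) hd
          have h2 : p ≤ p ^ 2 := Nat.le_self_pow (by norm_num) p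
          omega
        have := single ((Ioc y (N + j)).filter Nat.Prime) (fun p => p ^ 2) p
          (by rw [Finset.mem_filter, Finset.mem_Ioc]; exact ⟨⟨hpy, hpN⟩, hp⟩) hd
        linarith
      · have hpN : p ≤ N + j := by
          have h1 : p ≤ n + j := Nat.le_of_dvd (by omega) hd
          omega
        have := single ((Ioc y (N + j)).filter (fun p => p.Prime ∧ B p)) (fun p => p) p
          (by rw [Finset.mem_filter, Finset.mem_Ioc]; exact ⟨⟨hpy, hpN⟩, hp, hB⟩) hd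
        linarith
    · rw [if_neg hbad]
      linarith
  refine key.trans ?_
  unfold EB
  rw [mul_add, mul_add, Finset.mul_sum, Finset.mul_sum, Finset.mul_sum]
  refine add_le_add (Finset.sum_le_sum fun p hp => ?_)
    (add_le_add (Finset.sum_le_sum fun p hp => ?_) (Finset.sum_le_sum fun p hp => ?_))
  · have hpp : p.Prime := (Finset.mem_filter.mp hp).2
    have := hU (p ^ (m + 1)) (Nat.one_le_pow _ _ hpp.pos)
    push_cast at this
    exact this
  · have hpp : p.Prime := (Finset.mem_filter.mp hp).2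
    have := hU (p ^ 2) (Nat.one_le_pow _ _ hpp.pos)
    push_cast at this
    exact this
  · have hpp : p.Prime := (Finset.mem_filter.mp hp).2.1
    exact hU p hpp.pos

lemma van_periodic {w : ℕ → ℝ} {g : ℕ → ℤˣ} (hv : VanC w g) {H : Finset ℕ} (hne : H.Nonempty)
    {P : ℕ → ℝ} {R : ℕ} (hR : 0 < R) (hper : ∀ n, P (n + R) = P n) :
    Tendsto (fun N : ℕ => (∑ n ∈ Icc 1 N, w n * (P n * prodSeq g H n)) / (N:ℝ)) atTop (𝓝 0) := by
  have h1 : (fun N : ℕ => (∑ n ∈ Icc 1 N, w n * (P n * prodSeq g H n)) / (N:ℝ)) =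
      fun N : ℕ => ∑ a ∈ Finset.range R, P a *
        ((∑ n ∈ Icc 1 N, w n * (if n % R = a then 1 else 0) * prodSeq g H n) / (N:ℝ)) := by
    funext N
    have h2 : ∀ n, w n * (P n * prodSeq g H n) = ∑ a ∈ Finset.range R,
        P a * (w n * (if n % R = a then 1 else 0) * prodSeq g H n) := by
      intro n
      rw [Finset.sum_eq_single (n % R)]
      · rw [if_pos rfl, mul_one, mod_eq_of_periodic hper]
        ring
      · intro a _ ha
        rw [if_neg (Ne.symm ha), mul_zero, zero_mul, mul_zero]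
      · intro h
        exact absurd (Finset.mem_range.mpr (Nat.mod_lt n hR)) h
    rw [Finset.sum_congr rfl fun n _ => h2 n, Finset.sum_comm, Finset.sum_div]
    refine Finset.sum_congr rfl fun a _ => ?_
    rw [← Finset.mul_sum, mul_div_assoc]
  rw [h1]
  have h3 : Tendsto (fun N : ℕ => ∑ a ∈ Finset.range R, P a *
        ((∑ n ∈ Icc 1 N, w n * (if n % R = a then 1 else 0) * prodSeq g H n) / (N:ℝ))) atTop
      (𝓝 (∑ a ∈ Finset.range R, P a * 0)) :=
    tendsto_finsetSum _ fun a _ => (hv H hne R a).const_mul (P a)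
  simpa using h3

lemma rnd_prime (y : SS) {p : ℕ} (hp : p.Prime) : rnd y p = y p := by
  unfold rnd
  rw [hp.factorization, Finsupp.prod_single_index (by simp), pow_one]

lemma PS_zero {B : ℕ → Prop} (h : ∀ p : ℕ, p.Prime → ¬ B p) (y N : ℕ) : PS B y N = 0 := by
  classical
  unfold PS
  refine Finset.sum_eq_zero fun p hp => ?_
  rw [Finset.mem_filter] at hp
  exact absurd hp.2.2 (h p hp.2.1)

/-- from `rnd f` to the multiplicative function `f` -/
theorem van_mult {f : ℕ → ℤˣ} (hf : MultS f) {w : ℕ → ℝ} (hw : ∀ n, |w n| ≤ 1)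
    (hv : VanC w (rnd f)) {H : Finset ℕ} (hne : H.Nonempty) :
    Tendsto (fun N : ℕ => (∑ n ∈ Icc 1 N, w n * prodSeq f H n) / (N:ℝ)) atTop (𝓝 0) := by
  set g : ℕ → ℤˣ := rnd f with hg
  have hgm : MultS g := fun m n hm hn _ => rnd_mul _ hm.ne' hn.ne'
  have hh : MultS fun n => f n * g n := hf.mul hgm
  set h : ℕ → ℤˣ := fun n => f n * g n with hhd
  set χ : DirichletCharacter ℂ 1 := 1 with hχ
  set B : ℕ → Prop := fun p => sgC (h p) ≠ χ (p : ZMod 1) with hB
  have hBp : ∀ p : ℕ, p.Prime → ¬ B p := by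
    intro p hp
    rw [hB]
    simp only [not_not]
    have e1 : h p = 1 := by
      show f p * rnd f p = 1
      rw [rnd_prime _ hp]
      exact Int.units_mul_self _
    rw [e1]
    have e2 : χ (p : ZMod 1) = 1 := by
      rw [hχ, MulChar.one_apply]
      exact isUnit_of_subsingleton _
    rw [e2]
    simp [sgC]
  have hPS : ∀ y N : ℕ, PS B y N = 0 := PS_zero hBp
  rw [tendsto_zero_iff_abs_tendsto_zero, tendsto_order]
  constructor
  · intro a ha
    exact Eventually.of_forall fun N => ha.trans_le (abs_nonneg _)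
  intro ε hε
  have l2 : Tendsto (fun y : ℕ => (y : ℝ) * (1 / 2) ^ y) atTop (𝓝 0) :=
    tendsto_self_mul_const_pow_of_lt_one (r := 1 / 2) (by norm_num) (by norm_num)
  have l3 : Tendsto (fun y : ℕ => 1 / (y : ℝ)) atTop (𝓝 0) :=
    tendsto_natCast_atTop_atTop.const_div_atTop 1
  have l4 : Tendsto (fun y : ℕ => ∑ _j ∈ H, 2 * (2 * ((y : ℝ) * (1 / 2) ^ y + 1 / (y : ℝ))))
      atTop (𝓝 0) := by
    have l5 : Tendsto (fun y : ℕ => 2 * (2 * ((y : ℝ) * (1 / 2) ^ y + 1 / (y : ℝ)))) atTop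
        (𝓝 (2 * (2 * (0 + 0)))) := ((l2.add l3).const_mul 2).const_mul 2
    have l6 := tendsto_finsetSum H (fun _ _ => l5)
    simpa using l6
  obtain ⟨y, hy1, hy2⟩ := ((l4.eventually (eventually_lt_nhds (show (0:ℝ) < ε / 2 by positivity))).and
    (eventually_ge_atTop 1)).exists
  have hper : ∀ n, (∏ j ∈ H, PP h χ y y (n + 1 * QQ y y + j)) = ∏ j ∈ H, PP h χ y y (n + j) :=
    fun n => prod_PP_periodic h χ y y H n
  have hmain := van_periodic hv hne (P := fun n => ∏ j ∈ H, PP h χ y y (n + j))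
    (R := 1 * QQ y y) (Nat.mul_pos one_pos (QQ_pos y y)) hper
  have hmain' := (tendsto_zero_iff_abs_tendsto_zero _).mp hmain
  filter_upwards [hmain'.eventually (eventually_lt_nhds (show (0:ℝ) < ε / 2 by positivity)),
    eventually_ge_atTop 1, eventually_ge_atTop y, eventually_ge_atTop (H.sup id)] with N e1 e2 e3 e4
  have hN0 : (0:ℝ) < N := by exact_mod_cast e2
  have hpt : ∀ n, |w n * prodSeq f H n - w n * ((∏ j ∈ H, PP h χ y y (n + j)) * prodSeq g H n)| ≤
      ∑ j ∈ H, 2 * BI B y y (n + j) := by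
    intro n
    rw [← mul_sub, abs_mul]
    refine le_trans (mul_le_of_le_one_left (abs_nonneg _) (hw n)) ?_
    refine le_trans (le_of_eq ?_) (prod_PP_close hh χ y y H n)
    have h3 : prodSeq f H n = prodSeq h H n * prodSeq g H n := by
      rw [hhd, prodSeq_mul_fun, mul_assoc, prodSeq_mul, symmDiff_self]
      unfold prodSeq
      simp
    rw [h3, ← sub_mul, abs_mul, abs_prodSeq, mul_one]
  have hdiff : |(∑ n ∈ Icc 1 N, w n * prodSeq f H n) / (N:ℝ) -
      (∑ n ∈ Icc 1 N, w n * ((∏ j ∈ H, PP h χ y y (n + j)) * prodSeq g H n)) / (N:ℝ)| ≤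
      ∑ _j ∈ H, 2 * (2 * ((y : ℝ) * (1 / 2) ^ y + 1 / (y : ℝ))) := by
    rw [← sub_div, ← Finset.sum_sub_distrib, abs_div, abs_of_pos hN0, div_le_iff₀ hN0]
    refine (Finset.abs_sum_le_sum_abs _ _).trans ((Finset.sum_le_sum fun n _ => hpt n).trans ?_)
    rw [Finset.sum_comm, Finset.sum_mul]
    refine Finset.sum_le_sum fun j hj => ?_
    rw [← Finset.mul_sum]
    have h5 := sum_BI_le B y y N j
    have h6 := EB_le B (show 0 < y by omega) (show y ≤ N + j by omega)
    rw [hPS, add_zero] at h6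
    have hjN : (j:ℝ) ≤ N := by
      have h7 : j ≤ H.sup id := Finset.le_sup (f := id) hj
      exact_mod_cast h7.trans e4
    have h8 : 0 ≤ (y : ℝ) * (1 / 2) ^ y + 1 / (y : ℝ) := by positivity
    calc 2 * ∑ n ∈ Icc 1 N, BI B y y (n + j)
        ≤ 2 * ((N + j : ℝ) * EB B y y (N + j)) := mul_le_mul_of_nonneg_left h5 (by norm_num)
      _ ≤ 2 * ((N + j : ℝ) * ((y : ℝ) * (1 / 2) ^ y + 1 / (y : ℝ))) := by
          refine mul_le_mul_of_nonneg_left (mul_le_mul_of_nonneg_left h6 (by positivity)) (by norm_num)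
      _ ≤ 2 * ((2 * N : ℝ) * ((y : ℝ) * (1 / 2) ^ y + 1 / (y : ℝ))) := by
          refine mul_le_mul_of_nonneg_left (mul_le_mul_of_nonneg_right (by linarith) h8) (by norm_num)
      _ = 2 * (2 * ((y : ℝ) * (1 / 2) ^ y + 1 / (y : ℝ))) * N := by ring
  have h9 := abs_sub_abs_le_abs_sub ((∑ n ∈ Icc 1 N, w n * prodSeq f H n) / (N:ℝ))
    ((∑ n ∈ Icc 1 N, w n * ((∏ j ∈ H, PP h χ y y (n + j)) * prodSeq g H n)) / (N:ℝ))
  have e1' : |(∑ n ∈ Icc 1 N, w n * ((∏ j ∈ H, PP h χ y y (n + j)) * prodSeq g H n)) / (N:ℝ)| <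
      ε / 2 := e1
  have hy1' : ∑ _j ∈ H, 2 * (2 * ((y : ℝ) * (1 / 2) ^ y + 1 / (y : ℝ))) < ε / 2 := hy1
  show |(∑ n ∈ Icc 1 N, w n * prodSeq f H n) / (N:ℝ)| < ε
  linarith

end Pool.Agent.Lib.P4a7640Ces
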