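import Mathlib
import Pool.Agent.Lib.P4a7640Ces.Par

/-!
# Borel-Cantelli along the scales `l ^ A`, and the integers between two scales
-/

open Filter MeasureTheory Finset Topology

namespace Pool.Agent.Lib.P4a7640Ces

/-- exceptional sets of measure `N ^ (-c')` are summable along `N = l ^ A` -/
theorem ae_scales {c' : ℝ} (hc' : 0 < c') {P : ℕ → ℝ → Prop}
    (h : ∀ᶠ N : ℕ in atTop, ∀ u : ℝ, ∃ E : Set ℝ, MeasurableSet E ∧ E ⊆ Set.Ico u (u + 1) ∧
      (volume E).toReal ≤ Real.exp (-(c' * Real.log N)) ∧ ∀ α ∈ Set.Ico u (u + 1), α ∉ E → P N α) :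
    ∃ A : ℕ, 1 ≤ A ∧ ∀ᵐ α : ℝ, ∀ᶠ l : ℕ in atTop, P (l ^ A) α := by
  obtain ⟨N₀, hN₀⟩ := eventually_atTop.1 h
  set A : ℕ := ⌈2 / c'⌉₊ + 1 with hA
  have hA1 : 1 ≤ A := by omega
  have hA2 : 2 ≤ c' * A := by
    have h1 : 2 / c' ≤ (⌈2 / c'⌉₊ : ℝ) := Nat.le_ceil _
    have h2 : (⌈2 / c'⌉₊ : ℝ) ≤ A := by exact_mod_cast (by omega : ⌈2 / c'⌉₊ ≤ A)
    have h3 := (div_le_iff₀ hc').1 (h1.trans h2)
    linarith
  refine ⟨A, hA1, ?_⟩
  have key : ∀ u : ℤ, ∀ᵐ α : ℝ, α ∈ Set.Ico (u:ℝ) (u + 1) → ∀ᶠ l : ℕ in atTop, P (l ^ A) α := by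
    intro u
    choose! E hEm hEs hEv hE using fun N (hN : N₀ ≤ N) => hN₀ N hN u
    set s : ℕ → Set ℝ := fun l => if N₀ ≤ l ^ A ∧ 1 ≤ l then E (l ^ A) else ∅ with hs
    have hvol : ∀ l : ℕ, volume (s l) ≤ ENNReal.ofReal (1 / (l:ℝ) ^ 2) := by
      intro l
      simp only [hs]
      split_ifs with hl
      · have hfin : volume (E (l ^ A)) ≠ ⊤ := by
          refine ne_top_of_le_ne_top ?_ (measure_mono (hEs _ hl.1))
          rw [Real.volume_Ico]
          exact ENNReal.ofReal_ne_top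
        rw [← ENNReal.ofReal_toReal hfin]
        refine ENNReal.ofReal_le_ofReal ((hEv _ hl.1).trans ?_)
        have hl0 : (0:ℝ) < l := by exact_mod_cast hl.2
        have hl1 : (1:ℝ) ≤ l := by exact_mod_cast hl.2
        have h1 : 0 ≤ Real.log l := Real.log_nonneg hl1
        rw [Nat.cast_pow, Real.log_pow]
        have h2 : (1:ℝ) / (l:ℝ) ^ 2 = Real.exp (-(2 * Real.log l)) := by
          rw [Real.exp_neg, show (2:ℝ) * Real.log l = Real.log l * (2:ℕ) by push_cast; ring,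
            Real.exp_mul, Real.exp_log hl0, Real.rpow_natCast, one_div]
        rw [h2]
        refine Real.exp_le_exp.2 (neg_le_neg ?_)
        calc 2 * Real.log l ≤ (c' * A) * Real.log l := mul_le_mul_of_nonneg_right hA2 h1
          _ = c' * (A * Real.log l) := by ring
      · rw [measure_empty]
        exact zero_le
    have hsum : ∑' l, volume (s l) ≠ ⊤ := by
      refine ne_top_of_le_ne_top ?_ (ENNReal.tsum_le_tsum hvol)
      exact (Real.summable_one_div_nat_pow.2 (by norm_num)).tsum_ofReal_ne_top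
    filter_upwards [ae_eventually_notMem hsum] with α hα hu
    have hev : ∀ᶠ l : ℕ in atTop, N₀ ≤ l ^ A := by
      filter_upwards [eventually_ge_atTop N₀, eventually_ge_atTop 1] with l h1 h2
      exact h1.trans (Nat.le_self_pow (by omega) l)
    filter_upwards [hα, hev, eventually_ge_atTop 1] with l h1 h2 h3
    refine hE (l ^ A) h2 α hu ?_
    simp only [hs] at h1
    rw [if_pos ⟨h2, h3⟩] at h1
    exact h1
  filter_upwards [ae_all_iff.2 key] with α hα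
  exact hα ⌊α⌋ ⟨Int.floor_le α, Int.lt_floor_add_one α⟩

/-- from the scales `l ^ A` to all scales -/
theorem interp_pow {u : ℕ → ℝ} (hu : ∀ n, |u n| ≤ 1) {A : ℕ} (hA : 1 ≤ A) {η : ℝ} (hη : 0 < η)
    (h : ∀ᶠ l : ℕ in atTop, |(∑ n ∈ Icc 1 (l ^ A), u n) / ((l ^ A : ℕ) : ℝ)| ≤ η) :
    ∀ᶠ N : ℕ in atTop, |(∑ n ∈ Icc 1 N, u n) / (N:ℝ)| ≤ 2 * η := by
  have hratio : Tendsto (fun l : ℕ => (((l:ℝ) + 1) / l) ^ A) atTop (𝓝 1) := by
    have h1 : Tendsto (fun l : ℕ => ((l:ℝ) + 1) / l) atTop (𝓝 1) := by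
      have h2 : Tendsto (fun l : ℕ => 1 + 1 / (l:ℝ)) atTop (𝓝 (1 + 0)) :=
        tendsto_const_nhds.add tendsto_one_div_atTop_nhds_zero_nat
      rw [add_zero] at h2
      refine h2.congr' ?_
      filter_upwards [eventually_gt_atTop 0] with l hl
      have : (l:ℝ) ≠ 0 := by exact_mod_cast hl.ne'
      field_simp
    have h3 := h1.pow A
    rwa [one_pow] at h3
  have hev : ∀ᶠ l : ℕ in atTop, (((l:ℝ) + 1) / l) ^ A ≤ 1 + η :=
    (hratio.eventually (eventually_lt_nhds (by linarith : (1:ℝ) < 1 + η))).mono fun _ h => h.le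
  obtain ⟨l₀, hl₀⟩ := eventually_atTop.1 (h.and (hev.and (eventually_ge_atTop 1)))
  filter_upwards [eventually_ge_atTop ((l₀ + 1) ^ A), eventually_ge_atTop 1] with N hN hN1
  -- the scale below `N`
  have hex : ∃ l, N < (l + 1) ^ A := ⟨N, (Nat.lt_succ_self N).trans_le (Nat.le_self_pow (by omega) _)⟩
  classical
  set l := Nat.find hex with hl
  have hl1 : N < (l + 1) ^ A := Nat.find_spec hex
  have hl0 : l₀ ≤ l := by
    by_contra hcon
    have h1 : (l + 1) ^ A ≤ (l₀ + 1) ^ A := Nat.pow_le_pow_left (by omega) A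
    omega
  obtain ⟨g1, g2, g3⟩ := hl₀ l hl0
  have hl2 : l ^ A ≤ N := by
    have h1 := Nat.find_min hex (m := l - 1) (by omega)
    rw [not_lt, Nat.sub_add_cancel g3] at h1
    exact h1
  have hlr : (0:ℝ) < l := by exact_mod_cast g3
  have hlA : (0:ℝ) < ((l ^ A : ℕ) : ℝ) := by positivity
  have hN0 : (0:ℝ) < N := by exact_mod_cast hN1
  have hdiff : (N:ℝ) - ((l ^ A : ℕ) : ℝ) ≤ η * ((l ^ A : ℕ) : ℝ) := by
    have h1 : (N:ℝ) ≤ ((l:ℝ) + 1) ^ A := by exact_mod_cast hl1.le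
    have h2 : ((l:ℝ) + 1) ^ A ≤ (1 + η) * (l:ℝ) ^ A := by
      rw [div_pow, div_le_iff₀ (by positivity)] at g2
      exact g2
    push_cast
    linarith
  have hsplit : ∑ n ∈ Icc 1 N, u n = ∑ n ∈ Icc 1 (l ^ A), u n + ∑ n ∈ Ioc (l ^ A) N, u n := by
    have h1 : Icc 1 N = Icc 1 (l ^ A) ∪ Ioc (l ^ A) N := by
      ext n
      simp only [mem_union, mem_Icc, mem_Ioc]
      have : 1 ≤ l ^ A := Nat.one_le_pow _ _ g3
      omega
    have h2 : Disjoint (Icc 1 (l ^ A)) (Ioc (l ^ A) N) := by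
      rw [disjoint_left]
      intro n hn hn'
      rw [mem_Icc] at hn
      rw [mem_Ioc] at hn'
      omega
    rw [h1, sum_union h2]
  rw [abs_div, abs_of_pos hN0, div_le_iff₀ hN0, hsplit]
  rw [abs_div, abs_of_pos hlA, div_le_iff₀ hlA] at g1
  have h3 : |∑ n ∈ Ioc (l ^ A) N, u n| ≤ (N:ℝ) - ((l ^ A : ℕ) : ℝ) := by
    refine (abs_sum_le_sum_abs _ _).trans ((sum_le_sum fun n _ => hu n).trans (le_of_eq ?_))
    rw [sum_const, Nat.card_Ioc, nsmul_eq_mul, mul_one, Nat.cast_sub hl2]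
  have h4 := abs_add_le (∑ n ∈ Icc 1 (l ^ A), u n) (∑ n ∈ Ioc (l ^ A) N, u n)
  have h5 : ((l ^ A : ℕ) : ℝ) ≤ N := by exact_mod_cast hl2
  nlinarith

end Pool.Agent.Lib.P4a7640Ces
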