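import Mathlib
import Pool.Agent.Lib.P4a7640Ces.Par
import Pool.Agent.Lib.P4a7640V.TcMom

/-!
# The mass of the primes of a cell, from the logarithmic mean at the scale `N ^ 2`
-/

open Filter MeasureTheory Finset Topology

namespace Pool.Agent.Lib.P4a7640Ces

open Pool.Agent.Lib.P4a7640 Pool.Agent.Lib.P4a7640D Pool.Agent.Lib.P4a7640X
open Pool.Agent.Lib.P4a7640V Pool.Agent.Lib.P4a7640V.TcAux

/-- the multiples of `p` among the first integers -/
lemma sum_mult_le {p : ℕ} (hp : 1 ≤ p) (M : ℕ) :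
    ∑ m ∈ (Icc 1 M).filter (fun m => p ∣ m), (1:ℝ) / m ≤ (1:ℝ) / p * ∑ m ∈ Icc 1 M, (1:ℝ) / m := by
  classical
  have h1 : ∑ m ∈ (Icc 1 M).filter (fun m => p ∣ m), (1:ℝ) / m =
      ∑ m ∈ ((Icc 1 M).filter (fun m => p ∣ m)).image (fun m => m / p), (1:ℝ) / p * (1 / m) := by
    rw [Finset.sum_image]
    · refine Finset.sum_congr rfl fun m hm => ?_
      rw [mem_filter] at hm
      obtain ⟨k, hk⟩ := hm.2
      rw [hk, Nat.mul_div_cancel_left _ (by omega)]
      push_cast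
      rw [one_div_mul_one_div]
    · intro m hm m' hm' h
      rw [mem_coe, mem_filter] at hm hm'
      obtain ⟨k, hk⟩ := hm.2
      obtain ⟨k', hk'⟩ := hm'.2
      simp only [hk, hk', Nat.mul_div_cancel_left _ (by omega : 0 < p)] at h
      rw [hk, hk', h]
  rw [h1, ← Finset.mul_sum]
  refine mul_le_mul_of_nonneg_left ?_ (by positivity)
  refine Finset.sum_le_sum_of_subset_of_nonneg (fun m hm => ?_) fun _ _ _ => by positivity
  rw [mem_image] at hm
  obtain ⟨m', hm', rfl⟩ := hm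
  rw [mem_filter, mem_Icc] at hm'
  obtain ⟨k, hk⟩ := hm'.2
  rw [hk, Nat.mul_div_cancel_left _ (by omega : 0 < p), mem_Icc]
  constructor
  · by_contra hcon
    have : k = 0 := by omega
    rw [this, mul_zero] at hk
    omega
  · have h2 : k ≤ p * k := Nat.le_mul_of_pos_left k (by omega)
    omega

lemma le_cP {N p : ℕ} (hp : p.Prime) (hpN : p ≤ N) : (1:ℝ) / p ≤ 4 * cP {0} (N ^ 2) p := by
  classical
  have hp2 := hp.two_le
  have hN2 : 2 ≤ N := hp2.trans hpN
  have hN0 : (0:ℝ) < N := by exact_mod_cast (by omega : 0 < N)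
  have hp0 : (0:ℝ) < p := by exact_mod_cast hp.pos
  have hlog : 0 < Real.log N := Real.log_pos (by exact_mod_cast (by omega : 1 < N))
  set M : ℕ := N ^ 2 / p with hM
  have hMN : N ≤ M := by
    rw [hM, Nat.le_div_iff_mul_le hp.pos, sq]
    exact Nat.mul_le_mul_left N hpN
  have hpM : p * M ≤ N ^ 2 := Nat.mul_div_le _ _
  set h1S : ℝ := ∑ m ∈ Icc 1 M, (1:ℝ) / m with hS
  have hS1 : Real.log N ≤ h1S := by
    have h1 := log_add_one_le_harmonic M
    rw [harmonic_eq_sum_Icc] at h1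
    push_cast at h1
    have h2 : Real.log N ≤ Real.log ((M:ℝ) + 1) := by
      refine Real.log_le_log hN0 ?_
      have : (N:ℝ) ≤ M := by exact_mod_cast hMN
      linarith
    refine h2.trans (h1.trans (le_of_eq ?_))
    rw [hS]
    exact Finset.sum_congr rfl fun m _ => (one_div _).symm
  have hS2 : h1S / 2 ≤ ∑ m ∈ (Icc 1 M).filter (fun m => ¬ p ∣ m), (1:ℝ) / m := by
    have h1 := Finset.sum_filter_add_sum_filter_not (Icc 1 M) (fun m => p ∣ m) (fun m => (1:ℝ) / m)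
    have h2 := sum_mult_le (p := p) (by omega) M
    have h3 : (1:ℝ) / p * h1S ≤ 1 / 2 * h1S := by
      refine mul_le_mul_of_nonneg_right ?_ (hlog.le.trans hS1)
      exact one_div_le_one_div_of_le (by norm_num) (by exact_mod_cast hp2)
    have h4 : ∑ m ∈ (Icc 1 M).filter (fun m => p ∣ m), (1:ℝ) / m ≤ 1 / 2 * h1S := h2.trans h3
    have h5 : ∑ m ∈ Icc 1 M, (1:ℝ) / m = h1S := rfl
    linarith
  have hS3 : (1:ℝ) / p * ∑ m ∈ (Icc 1 M).filter (fun m => ¬ p ∣ m), (1:ℝ) / m ≤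
      ∑ n ∈ (Icc 1 (N ^ 2)).filter (fun n => p ∈ oddT (MM {0} n)), (1:ℝ) / n := by
    rw [Finset.mul_sum]
    have h1 : ∑ m ∈ (Icc 1 M).filter (fun m => ¬ p ∣ m), (1:ℝ) / p * (1 / m) =
        ∑ n ∈ ((Icc 1 M).filter (fun m => ¬ p ∣ m)).image (fun m => p * m), (1:ℝ) / n := by
      rw [Finset.sum_image]
      · refine Finset.sum_congr rfl fun m _ => ?_
        push_cast
        rw [one_div_mul_one_div]
      · intro m _ m' _ h
        exact Nat.eq_of_mul_eq_mul_left hp.pos h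
    rw [h1]
    refine Finset.sum_le_sum_of_subset_of_nonneg (fun n hn => ?_) fun _ _ _ => by positivity
    rw [mem_image] at hn
    obtain ⟨m, hm, rfl⟩ := hn
    rw [mem_filter, mem_Icc] at hm
    have hm0 : m ≠ 0 := by omega
    rw [mem_filter, mem_Icc]
    refine ⟨⟨Nat.mul_pos hp.pos (by omega), (Nat.mul_le_mul_left p hm.1.2).trans hpM⟩, ?_⟩
    have h2 : MM {0} (p * m) = p * m := by
      unfold MM
      rw [Finset.prod_singleton, add_zero]
    rw [h2]
    unfold oddT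
    rw [mem_filter, Nat.mem_primeFactors]
    refine ⟨⟨hp, dvd_mul_right p m, Nat.mul_ne_zero hp.ne_zero hm0⟩, ?_⟩
    rw [Nat.factorization_mul hp.ne_zero hm0, Finsupp.add_apply, hp.factorization_self,
      Nat.factorization_eq_zero_of_not_dvd hm.2, add_zero]
    exact odd_one
  unfold cP
  have hlog2 : Real.log ((N ^ 2 : ℕ) : ℝ) = 2 * Real.log N := by
    push_cast
    rw [Real.log_pow]
    push_cast
    rfl
  rw [hlog2, ← mul_div_assoc, le_div_iff₀ (by positivity)]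
  have h6 : (1:ℝ) / p * (Real.log N / 2) ≤
      ∑ n ∈ (Icc 1 (N ^ 2)).filter (fun n => p ∈ oddT (MM {0} n)), (1:ℝ) / n := by
    refine le_trans (mul_le_mul_of_nonneg_left ?_ (by positivity)) hS3
    linarith
  linarith

/-- the mass of the primes of the cell `i` is at most the logarithmic mean at the scale `N ^ 2` -/
theorem mass_le_TC {N m : ℕ} {y₀ : ℝ} (hy₀ : ∀ p : ℕ, p.Prime → m ≤ be p → y₀ < (p:ℝ)) (G i : ℕ)
    (t : ℕ → ℝ) : ∑ p ∈ (Icc 1 N).filter (fun p => p.Prime ∧ m ≤ be p), (1:ℝ) / p * cI G i (t p) ≤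
      4 * TC {0} (N ^ 2) y₀ G i t := by
  classical
  rw [TC_eq, Finset.mul_sum]
  have hsub : (Icc 1 N).filter (fun p => p.Prime ∧ m ≤ be p) ⊆ DP {0} (N ^ 2) y₀ := by
    intro p hp
    rw [mem_filter, mem_Icc] at hp
    rw [mem_DP]
    refine ⟨⟨?_, hp.2.1⟩, hy₀ p hp.2.1 hp.2.2⟩
    have : N ≤ N ^ 2 := Nat.le_self_pow (by norm_num) N
    omega
  calc ∑ p ∈ (Icc 1 N).filter (fun p => p.Prime ∧ m ≤ be p), (1:ℝ) / p * cI G i (t p)
      ≤ ∑ p ∈ (Icc 1 N).filter (fun p => p.Prime ∧ m ≤ be p),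
          4 * (cP {0} (N ^ 2) p * cI G i (t p)) := by
        refine Finset.sum_le_sum fun p hp => ?_
        rw [mem_filter, mem_Icc] at hp
        rw [← mul_assoc]
        exact mul_le_mul_of_nonneg_right (le_cP hp.2.1 hp.1.2) (cI_nonneg G i _)
    _ ≤ _ := Finset.sum_le_sum_of_subset_of_nonneg hsub fun p _ _ =>
        mul_nonneg (by norm_num) (mul_nonneg (cP_nonneg _ _ p) (cI_nonneg G i _))

end Pool.Agent.Lib.P4a7640Ces
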