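import Mathlib
import Pool.Agent.Lib.P4a7640Ces.Par
import Pool.Agent.Lib.P4a7640X.SmA
import Pool.Agent.Lib.P4a7640K.SqfA
import Pool.Agent.Lib.P4a7640D.BlockMass
import Pool.Agent.Lib.P4a7640D.Level

/-!
# Few integers have a large smooth part, natural density
-/

open Filter MeasureTheory Finset Topology

namespace Pool.Agent.Lib.P4a7640Ces

open Pool.Agent.Lib.P4a7640 Pool.Agent.Lib.P4a7640D Pool.Agent.Lib.P4a7640K Pool.Agent.Lib.P4a7640X

private lemma geo_two {x : ℝ} (hx0 : 0 ≤ x) (hx : x ≤ 1 / 2) (E : ℕ) :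
    ∑ e ∈ Icc 1 E, x ^ e ≤ 2 * x := by
  have h : ∀ E : ℕ, ∑ e ∈ Icc 1 E, x ^ e + 2 * x ^ (E + 1) ≤ 2 * x := by
    intro E
    induction E with
    | zero => simp
    | succ E ih =>
      rw [Finset.sum_Icc_succ_top (by omega)]
      have h1 : (0:ℝ) ≤ x ^ (E + 1) := pow_nonneg hx0 _
      have h2 : x ^ (E + 1 + 1) = x ^ (E + 1) * x := pow_succ _ _
      rw [h2]
      have h3 : x ^ (E + 1) * x ≤ x ^ (E + 1) * (1 / 2) := mul_le_mul_of_nonneg_left hx h1
      linarith
  have h1 := h E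
  have h2 : (0:ℝ) ≤ x ^ (E + 1) := pow_nonneg hx0 _
  linarith

/-- the primes of the blocks below `b` -/
private def PB (b : ℕ) : Finset ℕ := (range (2 ^ 2 ^ b)).filter fun p => p.Prime ∧ be p < b

private lemma mem_PB {b p : ℕ} (hp : p.Prime) (hb : be p < b) : p ∈ PB b := by
  unfold PB
  rw [mem_filter, mem_range]
  refine ⟨(P4a7640D.LevelAux.lt_be p).trans_le ?_, hp, hb⟩
  exact Nat.pow_le_pow_right (by norm_num) (Nat.pow_le_pow_right (by norm_num) hb)

private lemma log_sm_le {b k E : ℕ} (hk : 0 < k) (hE : k ≤ E) :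
    Real.log (sm b k) ≤ ∑ p ∈ PB b, ∑ e ∈ Icc 1 E, if p ^ e ∣ k then Real.log p else 0 := by
  classical
  have hpr : ∀ p ∈ k.primeFactors, p.Prime := fun p hp => Nat.prime_of_mem_primeFactors hp
  have h1 : ((sm b k : ℕ) : ℝ) =
      ∏ p ∈ k.primeFactors, (if be p < b then (p:ℝ) ^ (k.factorization p) else 1) := by
    unfold sm
    rw [Finsupp.prod, Nat.support_factorization, Nat.cast_prod]
    refine Finset.prod_congr rfl fun p _ => ?_
    split_ifs
    · rw [Nat.cast_pow]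
    · rw [Nat.cast_one]
  rw [h1, Real.log_prod (fun p hp => by
    have hp0 : (p:ℝ) ≠ 0 := Nat.cast_ne_zero.2 (hpr p hp).ne_zero
    split_ifs
    · exact pow_ne_zero _ hp0
    · exact one_ne_zero)]
  have h2 : ∑ p ∈ k.primeFactors,
      Real.log (if be p < b then (p:ℝ) ^ (k.factorization p) else 1) =
      ∑ p ∈ k.primeFactors.filter (fun p => be p < b), (k.factorization p : ℝ) * Real.log p := by
    rw [Finset.sum_filter]
    refine Finset.sum_congr rfl fun p _ => ?_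
    split_ifs
    · rw [Real.log_pow]
    · rw [Real.log_one]
  rw [h2]
  have hsub : k.primeFactors.filter (fun p => be p < b) ⊆ PB b := by
    intro p hp
    rw [mem_filter] at hp
    exact mem_PB (hpr p hp.1) hp.2
  have hlog : ∀ p : ℕ, 0 ≤ Real.log p := fun p => Real.log_natCast_nonneg p
  refine (Finset.sum_le_sum_of_subset_of_nonneg hsub fun p _ _ =>
    mul_nonneg (Nat.cast_nonneg _) (hlog p)).trans ?_
  refine Finset.sum_le_sum fun p hp => ?_
  have hpp : p.Prime := (mem_filter.1 hp).2.1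
  rw [← Finset.sum_filter, Finset.sum_const, nsmul_eq_mul]
  refine mul_le_mul_of_nonneg_right ?_ (hlog p)
  have h3 : Icc 1 (k.factorization p) ⊆ (Icc 1 E).filter (fun e => p ^ e ∣ k) := by
    intro e he
    rw [mem_Icc] at he
    rw [mem_filter, mem_Icc]
    refine ⟨⟨he.1, ?_⟩, ?_⟩
    · have := Nat.factorization_lt p hk.ne'
      omega
    · exact (hpp.pow_dvd_iff_le_factorization hk.ne').2 he.2
  have h4 := Finset.card_le_card h3
  rw [Nat.card_Icc] at h4
  exact_mod_cast (by omega : k.factorization p ≤ ((Icc 1 E).filter (fun e => p ^ e ∣ k)).card)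

private lemma sum_log_div {C : ℝ} (hC : 0 < C)
    (hblock : ∀ (j : ℕ) (D : Finset ℕ), (∀ p ∈ D, p.Prime ∧ be p = j) → ∑ p ∈ D, (1:ℝ) / p ≤ C)
    (b : ℕ) : ∑ p ∈ PB b, Real.log p * (1 / (p:ℝ)) ≤ 2 * C * Real.log 2 * 2 ^ b := by
  have hL : 0 < Real.log 2 := Real.log_pos (by norm_num)
  have hmaps : ∀ p ∈ PB b, be p ∈ range b := fun p hp => mem_range.2 (mem_filter.1 hp).2.2
  rw [← Finset.sum_fiberwise_of_maps_to hmaps]
  have h1 : ∀ j ∈ range b, ∑ p ∈ (PB b).filter (fun p => be p = j), Real.log p * (1 / (p:ℝ)) ≤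
      (2 * C * Real.log 2) * 2 ^ j := by
    intro j _
    have h2 : ∀ p ∈ (PB b).filter (fun p => be p = j), Real.log p * (1 / (p:ℝ)) ≤
        (2 ^ (j + 1) * Real.log 2) * (1 / (p:ℝ)) := by
      intro p hp
      obtain ⟨hp1, hp2⟩ := mem_filter.1 hp
      have hpp : p.Prime := (mem_filter.1 hp1).2.1
      have hp0 : (0:ℝ) < p := Nat.cast_pos.2 hpp.pos
      refine mul_le_mul_of_nonneg_right ?_ (by positivity)
      have h3 : p < 2 ^ 2 ^ (j + 1) := by
        rw [← hp2]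
        exact P4a7640D.LevelAux.lt_be p
      have h4 : Real.log p ≤ Real.log ((2:ℝ) ^ (2 ^ (j + 1))) := by
        refine Real.log_le_log hp0 ?_
        exact_mod_cast h3.le
      rw [Real.log_pow] at h4
      exact_mod_cast h4
    refine (Finset.sum_le_sum h2).trans ?_
    rw [← Finset.mul_sum]
    have h5 := hblock j ((PB b).filter (fun p => be p = j)) (fun p hp =>
      ⟨(mem_filter.1 (mem_filter.1 hp).1).2.1, (mem_filter.1 hp).2⟩)
    calc (2 ^ (j + 1) * Real.log 2) * ∑ p ∈ (PB b).filter (fun p => be p = j), (1:ℝ) / p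
        ≤ (2 ^ (j + 1) * Real.log 2) * C := mul_le_mul_of_nonneg_left h5 (by positivity)
      _ = (2 * C * Real.log 2) * 2 ^ j := by rw [pow_succ]; ring
  refine (Finset.sum_le_sum h1).trans ?_
  rw [← Finset.mul_sum]
  refine mul_le_mul_of_nonneg_left ?_ (by positivity)
  have h6 : (∑ j ∈ range b, 2 ^ j) + 1 ≤ 2 ^ b := by
    induction b with
    | zero => simp
    | succ b ih =>
      have ih' : (∑ j ∈ range b, 2 ^ j) + 1 ≤ 2 ^ b := by
        clear * -
        induction b with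
        | zero => simp
        | succ b ih => rw [Finset.sum_range_succ, pow_succ]; omega
      rw [Finset.sum_range_succ, pow_succ]
      omega
  have h7 : (∑ j ∈ range b, 2 ^ j) ≤ 2 ^ b := by omega
  exact_mod_cast h7

private lemma markov_sm {C : ℝ} (hC : 0 < C)
    (hblock : ∀ (j : ℕ) (D : Finset ℕ), (∀ p ∈ D, p.Prime ∧ be p = j) → ∑ p ∈ D, (1:ℝ) / p ≤ C)
    {N h : ℕ} (hh : h ≤ N) (b a : ℕ) :
    (((Icc 1 N).filter (fun n => 2 ^ 2 ^ a < sm b (n + h))).card : ℝ) ≤
      8 * C * (2 ^ b / 2 ^ a) * N := by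
  classical
  have hL : 0 < Real.log 2 := Real.log_pos (by norm_num)
  have hlog : ∀ p : ℕ, 0 ≤ Real.log p := fun p => Real.log_natCast_nonneg p
  have hhN : (h:ℝ) ≤ N := by exact_mod_cast hh
  have hN0 : (0:ℝ) ≤ N := Nat.cast_nonneg N
  have hP : (0:ℝ) < 2 ^ a * Real.log 2 := by positivity
  -- Markov
  have h1 : (2 ^ a * Real.log 2) *
      (((Icc 1 N).filter (fun n => 2 ^ 2 ^ a < sm b (n + h))).card : ℝ) ≤
      ∑ n ∈ Icc 1 N, Real.log (sm b (n + h)) := by
    rw [mul_comm, ← nsmul_eq_mul, ← Finset.sum_const]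
    have h2 : ∀ n ∈ (Icc 1 N).filter (fun n => 2 ^ 2 ^ a < sm b (n + h)),
        (2 ^ a * Real.log 2) ≤ Real.log (sm b (n + h)) := by
      intro n hn
      obtain ⟨_, hn2⟩ := mem_filter.1 hn
      have h3 : Real.log ((2:ℝ) ^ (2 ^ a)) ≤ Real.log (sm b (n + h)) := by
        refine Real.log_le_log (by positivity) ?_
        exact_mod_cast hn2.le
      rw [Real.log_pow] at h3
      exact_mod_cast h3
    refine (Finset.sum_le_sum h2).trans ?_
    exact Finset.sum_le_sum_of_subset_of_nonneg (Finset.filter_subset _ _) fun n _ _ => hlog _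
  -- exchange
  have h2 : ∑ n ∈ Icc 1 N, Real.log (sm b (n + h)) ≤
      ∑ p ∈ PB b, ∑ e ∈ Icc 1 (N + h), Real.log p *
        (((Icc 1 N).filter fun n => p ^ e ∣ n + h).card : ℝ) := by
    have h3 : ∀ n ∈ Icc 1 N, Real.log (sm b (n + h)) ≤
        ∑ p ∈ PB b, ∑ e ∈ Icc 1 (N + h), (if p ^ e ∣ n + h then Real.log p else 0) := by
      intro n hn
      have hn1 := mem_Icc.1 hn
      exact log_sm_le (b := b) (k := n + h) (E := N + h) (by omega) (by omega)
    refine (Finset.sum_le_sum h3).trans (le_of_eq ?_)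
    rw [Finset.sum_comm]
    refine Finset.sum_congr rfl fun p _ => ?_
    rw [Finset.sum_comm]
    refine Finset.sum_congr rfl fun e _ => ?_
    rw [← Finset.sum_filter, Finset.sum_const, nsmul_eq_mul, mul_comm]
  -- the bound of the double sum
  have h3 : ∑ p ∈ PB b, ∑ e ∈ Icc 1 (N + h), Real.log p *
      (((Icc 1 N).filter fun n => p ^ e ∣ n + h).card : ℝ) ≤
      (4 * N) * ∑ p ∈ PB b, Real.log p * (1 / (p:ℝ)) := by
    rw [Finset.mul_sum]
    refine Finset.sum_le_sum fun p hp => ?_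
    have hpp : p.Prime := (mem_filter.1 hp).2.1
    have hp0 : (0:ℝ) < p := Nat.cast_pos.2 hpp.pos
    have h4 : ∀ e ∈ Icc 1 (N + h), Real.log p *
        (((Icc 1 N).filter fun n => p ^ e ∣ n + h).card : ℝ) ≤
        (Real.log p * (2 * N)) * (1 / (p:ℝ)) ^ e := by
      intro e _
      have h5 := card_mult_le N h (d := p ^ e) (Nat.one_le_pow _ _ hpp.pos)
      have h6 : (((Icc 1 N).filter fun n => p ^ e ∣ n + h).card : ℝ) ≤
          (2 * N) * (1 / (p:ℝ)) ^ e := by
        refine h5.trans ?_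
        push_cast
        calc (N + h : ℝ) / (p:ℝ) ^ e
            ≤ (2 * N) / (p:ℝ) ^ e :=
              div_le_div_of_nonneg_right (by linarith) (by positivity)
          _ = _ := by rw [one_div, inv_pow, div_eq_mul_inv]
      calc Real.log p * (((Icc 1 N).filter fun n => p ^ e ∣ n + h).card : ℝ)
          ≤ Real.log p * ((2 * N) * (1 / (p:ℝ)) ^ e) :=
            mul_le_mul_of_nonneg_left h6 (hlog p)
        _ = _ := by ring
    refine (Finset.sum_le_sum h4).trans ?_
    rw [← Finset.mul_sum]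
    have h7 : (1:ℝ) / p ≤ 1 / 2 := by
      apply div_le_div_of_nonneg_left (by norm_num) (by norm_num)
      exact_mod_cast hpp.two_le
    have h8 := geo_two (x := 1 / (p:ℝ)) (by positivity) h7 (N + h)
    have h9 : 0 ≤ Real.log p * (2 * (N:ℝ)) := mul_nonneg (hlog p) (by linarith)
    calc (Real.log p * (2 * (N:ℝ))) * ∑ e ∈ Icc 1 (N + h), (1 / (p:ℝ)) ^ e
        ≤ (Real.log p * (2 * (N:ℝ))) * (2 * (1 / (p:ℝ))) :=
          mul_le_mul_of_nonneg_left h8 h9
      _ = _ := by ring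
  have h4 := sum_log_div hC hblock b
  have h5 : (2 ^ a * Real.log 2) *
      (((Icc 1 N).filter (fun n => 2 ^ 2 ^ a < sm b (n + h))).card : ℝ) ≤
      (4 * N) * (2 * C * Real.log 2 * 2 ^ b) := by
    refine h1.trans (h2.trans (h3.trans ?_))
    exact mul_le_mul_of_nonneg_left h4 (by linarith)
  have h6 : (4 * (N:ℝ)) * (2 * C * Real.log 2 * 2 ^ b) =
      (2 ^ a * Real.log 2) * (8 * C * (2 ^ b / 2 ^ a) * N) := by
    have : (2:ℝ) ^ a ≠ 0 := by positivity
    field_simp
    ring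
  rw [h6] at h5
  exact le_of_mul_le_mul_left h5 hP

private lemma le_be_of {j N : ℕ} (h : 2 ^ 2 ^ j ≤ N) : j ≤ be N := by
  unfold be
  have h1 : 2 ^ j ≤ Nat.log 2 N := Nat.le_log_of_pow_le (by norm_num) h
  exact Nat.le_log_of_pow_le (by norm_num) h1

theorem bad_sm (H : Finset ℕ) : ∃ C : ℝ, 0 < C ∧ ∀ i j : ℕ, ∀ᶠ N : ℕ in atTop,
    (((Icc 1 N).filter (fun n => ∃ h ∈ H, 2 ^ 2 ^ (be N - i) < sm (be N - j) (n + h))).card : ℝ) /
      N ≤ C * 2 ^ i / 2 ^ j := by
  classical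
  obtain ⟨C, hC, hblock⟩ := block_mass
  refine ⟨∑ h ∈ H, 8 * C + 1,
    add_pos_of_nonneg_of_pos (Finset.sum_nonneg fun h _ => by positivity) one_pos, ?_⟩
  intro i j
  have hev : ∀ᶠ N : ℕ in atTop, ∀ h ∈ H, h ≤ N :=
    (Finset.eventually_all H).2 fun h _ => eventually_ge_atTop h
  filter_upwards [hev, eventually_ge_atTop 2, eventually_ge_atTop (2 ^ 2 ^ j)] with N hN hN2 hNj
  have hN0 : (0:ℝ) < N := by exact_mod_cast (by omega : 0 < N)
  have hj : j ≤ be N := le_be_of hNj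
  rw [div_le_iff₀ hN0]
  have hsub : (Icc 1 N).filter (fun n => ∃ h ∈ H, 2 ^ 2 ^ (be N - i) < sm (be N - j) (n + h)) ⊆
      H.biUnion fun h => (Icc 1 N).filter
        (fun n => 2 ^ 2 ^ (be N - i) < sm (be N - j) (n + h)) := by
    intro n hn
    rw [mem_filter] at hn
    obtain ⟨hn1, h, hh, hs⟩ := hn
    rw [mem_biUnion]
    exact ⟨h, hh, mem_filter.2 ⟨hn1, hs⟩⟩
  have hratio : (2:ℝ) ^ (be N - j) / 2 ^ (be N - i) ≤ 2 ^ i / 2 ^ j := by
    rw [div_le_div_iff₀ (by positivity) (by positivity), ← pow_add, ← pow_add]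
    exact pow_le_pow_right₀ (by norm_num) (by omega)
  calc (((Icc 1 N).filter
        (fun n => ∃ h ∈ H, 2 ^ 2 ^ (be N - i) < sm (be N - j) (n + h))).card : ℝ)
      ≤ ((∑ h ∈ H, ((Icc 1 N).filter
          (fun n => 2 ^ 2 ^ (be N - i) < sm (be N - j) (n + h))).card : ℕ) : ℝ) := by
        exact_mod_cast (card_le_card hsub).trans card_biUnion_le
    _ = ∑ h ∈ H, (((Icc 1 N).filter
          (fun n => 2 ^ 2 ^ (be N - i) < sm (be N - j) (n + h))).card : ℝ) := by push_cast; rfl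
    _ ≤ ∑ h ∈ H, (8 * C) * ((2 ^ i / 2 ^ j) * N) := by
        refine Finset.sum_le_sum fun h hh => ?_
        refine (markov_sm hC hblock (hN h hh) (be N - j) (be N - i)).trans ?_
        rw [mul_assoc]
        refine mul_le_mul_of_nonneg_left ?_ (by positivity)
        exact mul_le_mul_of_nonneg_right hratio hN0.le
    _ = (∑ h ∈ H, 8 * C) * ((2 ^ i / 2 ^ j) * N) := by
        rw [Finset.sum_mul]
    _ ≤ (∑ h ∈ H, 8 * C + 1) * ((2 ^ i / 2 ^ j) * N) := by
        refine mul_le_mul_of_nonneg_right (by linarith) (by positivity)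
    _ = (∑ h ∈ H, 8 * C + 1) * 2 ^ i / 2 ^ j * N := by ring

end Pool.Agent.Lib.P4a7640Ces
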