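import Mathlib
import Pool.Agent.Lib.P4a7640Ces.Par
import Pool.Agent.Lib.P4a7640X.Trig
import Pool.Agent.Lib.P4a7640X.VarX
import Pool.Agent.Lib.P4a7640D.BlockMass
import Pool.Agent.Lib.P4a7640D.Level
import Pool.Agent.Lib.P4a7640K.SqfA

/-!
# The error of the replacement of the rest signs, natural averages
-/

open Filter MeasureTheory Finset Topology

namespace Pool.Agent.Lib.P4a7640Ces

open Pool.Agent.Lib.P4a7640 Pool.Agent.Lib.P4a7640D Pool.Agent.Lib.P4a7640X

private theorem be_mono {m n : ℕ} (h : m ≤ n) : be m ≤ be n :=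
  Nat.log_mono_right (Nat.log_mono_right h)

private theorem be_two_mul {N : ℕ} (hN : 2 ≤ N) : be (2 * N) ≤ be N + 1 := by
  have h2 : 1 ≤ Nat.log 2 N := Nat.log_pos (by norm_num) hN
  have h3 : Nat.log 2 (N * 2) = Nat.log 2 N + 1 := Nat.log_mul_base (by norm_num) (by omega)
  have h4 : Nat.log 2 (Nat.log 2 N * 2) = Nat.log 2 (Nat.log 2 N) + 1 :=
    Nat.log_mul_base (by norm_num) (by omega)
  calc be (2 * N) = Nat.log 2 (Nat.log 2 N + 1) := by unfold be; rw [mul_comm, h3]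
    _ ≤ Nat.log 2 (Nat.log 2 N * 2) := Nat.log_mono_right (by omega)
    _ = be N + 1 := by rw [h4]; rfl

/-- `2 ^ 2 ^ (be N - i)` is a power of `N` -/
theorem pow_ge {κ : ℝ} (hκ : 0 < κ) {N i : ℕ} (hN : 1 ≤ N) (hNi : i ≤ be N) :
    Real.exp (κ / 3 * (1 / 2 ^ (i + 1)) * Real.log N) ≤
      (((2 ^ 2 ^ (be N - i) : ℕ) : ℝ)) ^ (κ / 3) := by
  have hN0 : (0:ℝ) < N := by exact_mod_cast hN
  set y : ℝ := ((2 ^ 2 ^ (be N - i) : ℕ) : ℝ) with hy
  have hy1 : 1 ≤ y := by
    rw [hy]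
    exact_mod_cast Nat.one_le_two_pow
  have hy0 : 0 < y := by linarith
  rw [Real.rpow_def_of_pos hy0]
  refine Real.exp_le_exp.2 ?_
  have h1 : Real.log y = 2 ^ (be N - i) * Real.log 2 := by
    rw [hy]
    push_cast
    rw [Real.log_pow]
    push_cast
    rfl
  have h2 : Real.log N ≤ 2 ^ (be N + 1) * Real.log 2 := by
    have h3 : N < 2 ^ 2 ^ (be N + 1) := P4a7640D.LevelAux.lt_be N
    have h4 : Real.log N ≤ Real.log ((2 ^ 2 ^ (be N + 1) : ℕ) : ℝ) := by
      refine Real.log_le_log hN0 ?_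
      exact_mod_cast h3.le
    refine h4.trans (le_of_eq ?_)
    push_cast
    rw [Real.log_pow]
    push_cast
    rfl
  have h3 : (2:ℝ) ^ (be N + 1) = 2 ^ (be N - i) * 2 ^ (i + 1) := by
    rw [← pow_add]
    congr 1
    omega
  have h4 : (1:ℝ) / 2 ^ (i + 1) * Real.log N ≤ Real.log y := by
    rw [h1]
    calc (1:ℝ) / 2 ^ (i + 1) * Real.log N ≤ 1 / 2 ^ (i + 1) * (2 ^ (be N + 1) * Real.log 2) :=
          mul_le_mul_of_nonneg_left h2 (by positivity)
      _ = 2 ^ (be N - i) * Real.log 2 := by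
          rw [h3]
          field_simp
  calc κ / 3 * (1 / 2 ^ (i + 1)) * Real.log N = κ / 3 * (1 / 2 ^ (i + 1) * Real.log N) := by ring
    _ ≤ κ / 3 * Real.log y := mul_le_mul_of_nonneg_left h4 (by positivity)
    _ = Real.log y * (κ / 3) := by ring

/-- the mass of the rest primes -/
theorem rest_mass : ∃ C : ℝ, 0 < C ∧ ∀ i N : ℕ, 2 ≤ N →
    ∑ p ∈ (Icc 1 (2 * N)).filter (fun p => p.Prime ∧ be N - i ≤ be p), (1:ℝ) / p ≤ C * (i + 1) := by
  classical
  obtain ⟨C0, hC0, hblock⟩ := block_mass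
  refine ⟨2 * C0, by positivity, fun i N hN => ?_⟩
  set D := (Icc 1 (2 * N)).filter (fun p => p.Prime ∧ be N - i ≤ be p) with hD
  have hmaps : ∀ p ∈ D, be p ∈ Icc (be N - i) (be N + 1) := by
    intro p hp
    rw [hD, mem_filter, mem_Icc] at hp
    exact mem_Icc.2 ⟨hp.2.2, (be_mono hp.1.2).trans (be_two_mul hN)⟩
  rw [← Finset.sum_fiberwise_of_maps_to hmaps]
  calc ∑ j ∈ Icc (be N - i) (be N + 1), ∑ p ∈ D.filter (fun p => be p = j), (1:ℝ) / p
      ≤ ∑ j ∈ Icc (be N - i) (be N + 1), C0 := by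
        refine Finset.sum_le_sum fun j _ => hblock j _ fun p hp => ?_
        rw [mem_filter, hD, mem_filter] at hp
        exact ⟨hp.1.2.1, hp.2⟩
    _ = ((be N + 1 + 1 - (be N - i) : ℕ) : ℝ) * C0 := by
        rw [Finset.sum_const, Nat.card_Icc, nsmul_eq_mul]
    _ ≤ ((i:ℝ) + 2) * C0 := by
        refine mul_le_mul_of_nonneg_right ?_ hC0.le
        exact_mod_cast (by omega : be N + 1 + 1 - (be N - i) ≤ i + 2)
    _ ≤ 2 * C0 * (i + 1) := by
        have : (0:ℝ) ≤ i := Nat.cast_nonneg i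
        nlinarith

open Classical in
theorem err_bound {K₀ κ C : ℝ} (hK₀ : 0 < K₀) (hκ : 0 < κ) (hκ1 : κ ≤ 1) (hC : 0 < C)
    (H : Finset ℕ) : ∃ C₀ : ℝ, 0 < C₀ ∧ ∀ i J : ℕ, 0 < J → ∀ s : ℝ, 0 < s →
    ∃ c' : ℝ, 0 < c' ∧ ∃ B : ℝ, 0 < B ∧ ∀ᶠ N : ℕ in atTop,
      ∀ (φ : ℕ → UnitAddCircle → ℝ) (a : ℕ → ℕ) (cc : ℕ → Fin J × Fin J → ℂ),
      (∀ p, Measurable (φ p)) → (∀ p x, |φ p x| = 1) → (∀ p, a p ≠ 0) → P4a7640K.CntN K₀ κ a →
      (∀ p x, ‖tp (cc p) x‖ ≤ 1) → (∀ p, ∫ x, ‖(φ p x : ℂ) - tp (cc p) x‖ ≤ C / Real.sqrt J) →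
      (∀ p, P4a7640Y.LL1 (2 * C) (fun x => ‖(φ p x : ℂ) - tp (cc p) x‖)) →
      ∃ E : Set UnitAddCircle, MeasurableSet E ∧
        (volume E).toReal ≤ B * Real.exp (-(c' * Real.log N)) ∧
        ∀ x ∉ E, ∀ b t K : ℕ,
          ∑ n ∈ (Icc 1 N).filter (Good b (be N - i) t K H), (1:ℝ) / N *
            ∑ p ∈ rest (be N - i) H n, ‖((φ p (a p • x) : ℝ) : ℂ) - tp (cc p) (a p • x)‖ ≤
          C₀ * (i + 1) / Real.sqrt J + s := by
  obtain ⟨C1, hC1, hmass⟩ := rest_mass
  obtain ⟨C2, hC2, hvar⟩ := var_sum hK₀ hκ hκ1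
  set m : ℝ := 2 * (H.card + 1) with hm
  have hm0 : 0 < m := by positivity
  refine ⟨m * C1 * C, by positivity, fun i J hJ s hs => ?_⟩
  have hJ0 : 0 < Real.sqrt J := Real.sqrt_pos.2 (by exact_mod_cast hJ)
  set s' : ℝ := s / m with hs'
  have hs'0 : 0 < s' := by positivity
  refine ⟨κ / 3 * (1 / 2 ^ (i + 1)), by positivity,
    C2 * (2 * C) * (1 + C1 * (i + 1)) ^ 2 / s' ^ 2, by positivity, ?_⟩
  have hbe : Tendsto (fun N : ℕ => be N) atTop atTop := by
    have h : Tendsto (fun N : ℕ => Nat.log 2 N) atTop atTop :=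
      tendsto_atTop_atTop.2 fun b => ⟨2 ^ b, fun a ha => Nat.le_log_of_pow_le (by norm_num) ha⟩
    exact h.comp h
  filter_upwards [eventually_ge_atTop 2, hbe.eventually_ge_atTop i, eventually_ge_atTop (H.sup id)]
    with N hN hNi hNH
  intro φ a cc hφ hφ1 ha0 ha hcc hint hLL
  have hN0 : (0:ℝ) < N := by exact_mod_cast (by omega : 0 < N)
  set P := (Icc 1 (2 * N)).filter (fun p => p.Prime ∧ be N - i ≤ be p) with hP
  set e : ℕ → UnitAddCircle → ℝ := fun p x => ‖(φ p x : ℂ) - tp (cc p) x‖ with he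
  have hem : ∀ p, Measurable (e p) := fun p =>
    ((Complex.measurable_ofReal.comp (hφ p)).sub (continuous_tp (cc p)).measurable).norm
  have he0 : ∀ p x, 0 ≤ e p x := fun p x => norm_nonneg _
  have he2 : ∀ p x, |e p x| ≤ 2 := by
    intro p x
    rw [abs_of_nonneg (he0 p x)]
    calc ‖(φ p x : ℂ) - tp (cc p) x‖ ≤ ‖(φ p x : ℂ)‖ + ‖tp (cc p) x‖ := norm_sub_le _ _
      _ ≤ 1 + 1 := by
          refine add_le_add ?_ (hcc p x)
          rw [Complex.norm_real, Real.norm_eq_abs, hφ1]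
      _ = 2 := by norm_num
  set y : ℝ := ((2 ^ 2 ^ (be N - i) : ℕ) : ℝ) with hy
  have hy1 : 1 ≤ y := by
    rw [hy]
    exact_mod_cast Nat.one_le_two_pow
  have hPy : ∀ p ∈ P, p.Prime ∧ y ≤ p ∧ a p ≠ 0 := by
    intro p hp
    rw [hP, mem_filter] at hp
    refine ⟨hp.2.1, ?_, ha0 p⟩
    rw [hy]
    have h1 : 2 ^ 2 ^ (be N - i) ≤ p := by
      have h2 : 2 ^ (be N - i) ≤ Nat.log 2 p := by
        have h3 : Nat.log 2 p ≠ 0 := by
          have := Nat.log_pos (b := 2) (by norm_num) hp.2.1.two_le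
          omega
        exact Nat.pow_le_of_le_log h3 hp.2.2
      exact Nat.pow_le_of_le_log hp.2.1.ne_zero h2
    exact_mod_cast h1
  have hMP : ∑ p ∈ P, (1:ℝ) / p ≤ C1 * (i + 1) := hmass i N hN
  have hMP0 : 0 ≤ ∑ p ∈ P, (1:ℝ) / p := Finset.sum_nonneg fun _ _ => by positivity
  -- the variance
  set D : UnitAddCircle → ℝ := fun x => ∑ p ∈ P, (1:ℝ) / p * (e p (a p • x) - ∫ z, e p z) with hD
  have hV := hvar a ha y hy1 P hPy e (2 * C) hem he2 hLL
  have hDm : Measurable D := Finset.measurable_fun_sum P fun p _ =>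
    (((hem p).comp (continuous_nsmul (a p)).measurable).sub measurable_const).const_mul _
  set E : Set UnitAddCircle := {x | s' ≤ |D x|} with hE
  have hEm : MeasurableSet E := measurableSet_le measurable_const hDm.abs
  have hDb : ∃ M : ℝ, ∀ x, |D x| ≤ M := by
    refine ⟨∑ p ∈ P, (1:ℝ) / p * (2 + |∫ z, e p z|), fun x => ?_⟩
    refine (Finset.abs_sum_le_sum_abs _ _).trans (Finset.sum_le_sum fun p _ => ?_)
    rw [abs_mul, abs_of_nonneg (by positivity : (0:ℝ) ≤ 1 / p)]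
    refine mul_le_mul_of_nonneg_left ?_ (by positivity)
    exact (abs_sub _ _).trans (add_le_add (he2 p _) le_rfl)
  have hcheb : s' ^ 2 * (volume E).toReal ≤ ∫ x, D x ^ 2 := by
    have hi : Integrable (fun x => D x ^ 2) volume := by
      obtain ⟨M, hM⟩ := hDb
      refine P4a7640Y.int_bdd (hDm.pow_const 2) (C := M ^ 2) fun x => ?_
      rw [abs_pow]
      exact pow_le_pow_left₀ (abs_nonneg _) (hM x) 2
    have h1 := mul_meas_ge_le_integral_of_nonneg (μ := (volume : Measure UnitAddCircle))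
      (f := fun x => D x ^ 2) (Eventually.of_forall fun x => sq_nonneg _) hi (s' ^ 2)
    refine le_trans (le_of_eq ?_) h1
    congr 2
    refine congrArg volume ?_
    ext x
    simp only [hE, Set.mem_setOf_eq]
    rw [← sq_abs (D x)]
    constructor
    · intro h
      exact pow_le_pow_left₀ hs'0.le h 2
    · intro h
      exact le_of_pow_le_pow_left₀ (n := 2) (by norm_num) (abs_nonneg _) h
  have hpow : Real.exp (κ / 3 * (1 / 2 ^ (i + 1)) * Real.log N) ≤ y ^ (κ / 3) :=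
    pow_ge hκ (by omega) hNi
  refine ⟨E, hEm, ?_, ?_⟩
  · have h1 : C2 * (2 * C) * (1 + ∑ p ∈ P, (1:ℝ) / p) ^ 2 / y ^ (κ / 3) ≤
        C2 * (2 * C) * (1 + C1 * (i + 1)) ^ 2 *
          Real.exp (-(κ / 3 * (1 / 2 ^ (i + 1)) * Real.log N)) := by
      rw [Real.exp_neg, ← div_eq_mul_inv]
      refine div_le_div₀ (by positivity) ?_ (Real.exp_pos _) hpow
      refine mul_le_mul_of_nonneg_left ?_ (by positivity)
      exact pow_le_pow_left₀ (by linarith) (by linarith) 2
    have h2 := hcheb.trans (hV.trans h1)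
    calc (volume E).toReal = s' ^ 2 * (volume E).toReal / s' ^ 2 := by field_simp
      _ ≤ C2 * (2 * C) * (1 + C1 * (i + 1)) ^ 2 *
          Real.exp (-(κ / 3 * (1 / 2 ^ (i + 1)) * Real.log N)) / s' ^ 2 :=
          div_le_div_of_nonneg_right h2 (by positivity)
      _ = _ := by ring
  · intro x hx b t K
    have hDx : D x < s' := by
      have h1 : ¬ s' ≤ |D x| := hx
      rw [not_le] at h1
      exact (le_abs_self _).trans_lt h1
    have hsum : ∑ p ∈ P, (1:ℝ) / p * e p (a p • x) ≤ C1 * (i + 1) * (C / Real.sqrt J) + s' := by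
      have h1 : D x = ∑ p ∈ P, (1:ℝ) / p * e p (a p • x) - ∑ p ∈ P, (1:ℝ) / p * ∫ z, e p z := by
        rw [hD, ← Finset.sum_sub_distrib]
        exact Finset.sum_congr rfl fun p _ => by ring
      have h2 : ∑ p ∈ P, (1:ℝ) / p * ∫ z, e p z ≤ C1 * (i + 1) * (C / Real.sqrt J) := by
        calc ∑ p ∈ P, (1:ℝ) / p * ∫ z, e p z ≤ ∑ p ∈ P, (1:ℝ) / p * (C / Real.sqrt J) :=
              Finset.sum_le_sum fun p _ => mul_le_mul_of_nonneg_left (hint p) (by positivity)
          _ = (∑ p ∈ P, (1:ℝ) / p) * (C / Real.sqrt J) := by rw [Finset.sum_mul]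
          _ ≤ _ := mul_le_mul_of_nonneg_right hMP (by positivity)
      linarith
    have hstep : ∑ n ∈ (Icc 1 N).filter (Good b (be N - i) t K H), (1:ℝ) / N *
        ∑ p ∈ rest (be N - i) H n, e p (a p • x) ≤
        (H.card : ℝ) * (2 * ∑ p ∈ P, (1:ℝ) / p * e p (a p • x)) := by
      calc ∑ n ∈ (Icc 1 N).filter (Good b (be N - i) t K H), (1:ℝ) / N *
            ∑ p ∈ rest (be N - i) H n, e p (a p • x)
          ≤ ∑ n ∈ Icc 1 N, (1:ℝ) / N * ∑ p ∈ rest (be N - i) H n, e p (a p • x) :=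
            Finset.sum_le_sum_of_subset_of_nonneg (filter_subset _ _) fun n _ _ =>
              mul_nonneg (by positivity) (Finset.sum_nonneg fun p _ => he0 p _)
        _ ≤ ∑ n ∈ Icc 1 N, (1:ℝ) / N * ∑ h ∈ H, ∑ p ∈ P,
              (if p ∣ n + h then e p (a p • x) else 0) := by
            refine Finset.sum_le_sum fun n hn => mul_le_mul_of_nonneg_left ?_ (by positivity)
            rw [mem_Icc] at hn
            have hsub : rest (be N - i) H n ⊆ H.biUnion fun h => P.filter fun p => p ∣ n + h := by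
              intro p hp
              unfold rest at hp
              rw [mem_filter, Nat.mem_primeFactors] at hp
              obtain ⟨⟨hpp, hpd, _⟩, hbp⟩ := hp
              unfold MM at hpd
              obtain ⟨h, hh, hd⟩ := (Prime.dvd_finsetProd_iff hpp.prime _).1 hpd
              rw [mem_biUnion]
              have hhN : h ≤ N := (Finset.le_sup (f := id) hh).trans hNH
              have := Nat.le_of_dvd (by omega) hd
              exact ⟨h, hh, mem_filter.2 ⟨mem_filter.2 ⟨mem_Icc.2 ⟨hpp.one_lt.le, by omega⟩,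
                hpp, hbp⟩, hd⟩⟩
            refine (Finset.sum_le_sum_of_subset_of_nonneg hsub fun p _ _ => he0 p _).trans ?_
            refine (P4a7640K.sum_biUnion_le_real _ _ (fun p => he0 p _)).trans ?_
            refine Finset.sum_le_sum fun h _ => ?_
            rw [Finset.sum_filter]
        _ = ∑ h ∈ H, ∑ p ∈ P, (1:ℝ) / N * (e p (a p • x) *
              (((Icc 1 N).filter fun n => p ∣ n + h).card : ℝ)) := by
            simp only [Finset.mul_sum]
            rw [Finset.sum_comm]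
            refine Finset.sum_congr rfl fun h _ => ?_
            rw [Finset.sum_comm]
            refine Finset.sum_congr rfl fun p _ => ?_
            rw [← Finset.mul_sum, ← Finset.sum_filter, Finset.sum_const, nsmul_eq_mul]
            ring
        _ ≤ ∑ h ∈ H, ∑ p ∈ P, 2 * ((1:ℝ) / p * e p (a p • x)) := by
            refine Finset.sum_le_sum fun h hh => Finset.sum_le_sum fun p hp => ?_
            rw [hP, mem_filter, mem_Icc] at hp
            have h1 := card_mult_le N h (d := p) hp.1.1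
            have h2 : (h:ℝ) ≤ N := by exact_mod_cast (Finset.le_sup (f := id) hh).trans hNH
            have hp0 : (0:ℝ) < p := by exact_mod_cast hp.1.1
            have h3 : (((Icc 1 N).filter fun n => p ∣ n + h).card : ℝ) ≤ 2 * N / p :=
              h1.trans (div_le_div_of_nonneg_right (by linarith) hp0.le)
            calc (1:ℝ) / N * (e p (a p • x) * (((Icc 1 N).filter fun n => p ∣ n + h).card : ℝ))
                ≤ (1:ℝ) / N * (e p (a p • x) * (2 * N / p)) :=
                  mul_le_mul_of_nonneg_left (mul_le_mul_of_nonneg_left h3 (he0 p _)) (by positivity)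
              _ = ((N:ℝ) / N) * (2 * ((1:ℝ) / p * e p (a p • x))) := by ring
              _ = 2 * ((1:ℝ) / p * e p (a p • x)) := by rw [div_self hN0.ne', one_mul]
        _ = (H.card : ℝ) * (2 * ∑ p ∈ P, (1:ℝ) / p * e p (a p • x)) := by
            rw [Finset.sum_const, nsmul_eq_mul, ← Finset.mul_sum]
    refine hstep.trans ?_
    have hS0 : 0 ≤ ∑ p ∈ P, (1:ℝ) / p * e p (a p • x) :=
      Finset.sum_nonneg fun p _ => mul_nonneg (by positivity) (he0 p _)
    calc (H.card : ℝ) * (2 * ∑ p ∈ P, (1:ℝ) / p * e p (a p • x))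
        ≤ m * ∑ p ∈ P, (1:ℝ) / p * e p (a p • x) := by
          rw [hm]
          nlinarith
      _ ≤ m * (C1 * (i + 1) * (C / Real.sqrt J) + s') := mul_le_mul_of_nonneg_left hsum hm0.le
      _ = m * C1 * C * (i + 1) / Real.sqrt J + s := by
          have e1 : m * s' = s := by
            rw [hs']
            exact mul_div_cancel₀ _ hm0.ne'
          rw [mul_add, e1]
          ring

end Pool.Agent.Lib.P4a7640Ces
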