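import Mathlib
import Pool.Agent.Lib.P4a7640Ces.Par
import Pool.Agent.Lib.P4a7640X.SmA
import Pool.Agent.Lib.P4a7640X.ExpX

/-!
# The pointwise inequality at one scale, natural averages
-/

open Filter MeasureTheory Finset Topology

namespace Pool.Agent.Lib.P4a7640Ces

open Pool.Agent.Lib.P4a7640 Pool.Agent.Lib.P4a7640D Pool.Agent.Lib.P4a7640X

namespace ScaleAAux

lemma norm_prod_sg {ι : Type*} (S : Finset ι) (f : ι → ℤˣ) : |∏ i ∈ S, sg (f i)| = 1 := by
  rw [Finset.abs_prod]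
  exact Finset.prod_eq_one fun i _ => abs_sg _

/-- the bound by the sum of the weights -/
lemma abs_sum_le' {w : ℕ → ℝ} (hw : ∀ n, |w n| ≤ 1) {l : ℝ} (hl : 0 < l) {P : ℕ → ℝ}
    (hP : ∀ n, |P n| = 1) (S : Finset ℕ) :
    |∑ n ∈ S, w n / l * P n| ≤ (S.card : ℝ) / l := by
  have h : (S.card : ℝ) / l = ∑ n ∈ S, (1:ℝ) / l := by
    rw [Finset.sum_const, nsmul_eq_mul, mul_one_div]
  rw [h]
  refine (Finset.abs_sum_le_sum_abs _ _).trans (Finset.sum_le_sum fun n _ => ?_)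
  rw [abs_mul, hP, mul_one, abs_div, abs_of_pos hl]
  exact div_le_div_of_nonneg_right (hw n) hl.le

open Classical in
/-- sorting by the classes -/
lemma sort_cls {β : Type*} (G : Finset ℕ) (cl : ℕ → β) (s : β → ℂ) (f : ℕ → ℂ) :
    ∑ n ∈ G, s (cl n) * f n = ∑ a' ∈ G.image cl, s a' * ∑ n ∈ G.filter (fun n => cl n = a'), f n := by
  rw [← Finset.sum_fiberwise_of_maps_to (g := cl) (t := G.image cl)
    (fun n hn => Finset.mem_image_of_mem cl hn)]
  refine Finset.sum_congr rfl fun a' _ => ?_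
  rw [Finset.mul_sum]
  refine Finset.sum_congr rfl fun n hn => ?_
  rw [(Finset.mem_filter.1 hn).2]

end ScaleAAux

open ScaleAAux

open Classical in
theorem FC_le {H : Finset ℕ} {b c t K N J : ℕ} (hN : 1 ≤ N)
    (hbc : b ≤ c) (hb : ∀ p : ℕ, p.Prime → b ≤ be p → H.sup id < p)
    {φ : ℕ → UnitAddCircle → ℝ} (hφ : ∀ p x, |φ p x| = 1) {a : ℕ → ℕ} {w : ℕ → ℝ}
    (hw : ∀ n, |w n| ≤ 1) {cc : ℕ → Fin J × Fin J → ℂ} (hcc : ∀ p x, ‖tp (cc p) x‖ ≤ 1)
    {Cn : ℕ → (Fin t → Option (Fin J × Fin J)) → ℂ} {θn : ℕ → (Fin t → Option (Fin J × Fin J)) → ℤ}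
    (hexp : ∀ n ∈ Icc 1 N, Good b c t K H n → ∀ x : UnitAddCircle,
      ∏ p ∈ rest c H n, tp (cc p) (a p • x) = ∑ ω, Cn n ω * fourier (θn n ω) x)
    {x : UnitAddCircle} {y : SS} (hy : ∀ p : ℕ, p.Prime → b ≤ be p → sg (y p) = φ p (a p • x)) :
    |FC w H N y| ≤ (((Icc 1 N).filter (fun n => ¬ Good b c t K H n)).card : ℝ) / N +
      ∑ n ∈ (Icc 1 N).filter (Good b c t K H), (1:ℝ) / N *
        ∑ p ∈ rest c H n, ‖((φ p (a p • x) : ℝ) : ℂ) - tp (cc p) (a p • x)‖ +
      ∑ ω : Fin t → Option (Fin J × Fin J),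
        ∑ a' ∈ ((Icc 1 N).filter (Good b c t K H)).image (cls b H),
          ‖∑ n ∈ Icc 1 N, (if Good b c t K H n ∧ cls b H n = a' then
              ((w n / N : ℝ) : ℂ) * Cn n ω else 0) *
            (fourier (θn n ω) x * (P4a7640Y.WW φ a H (win b c) n x : ℂ))‖ := by
  have hl : (0:ℝ) < N := by exact_mod_cast hN
  set P : ℕ → ℝ := fun n => ∏ h ∈ H, sg (rnd y (n + h)) with hP
  have hP1 : ∀ n, |P n| = 1 := fun n => norm_prod_sg H _
  set s : (ℕ → ℕ) → ℂ := fun a' => ((∏ h ∈ H, sg (rnd y (a' h)) : ℝ) : ℂ) with hs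
  have hs1 : ∀ a', ‖s a'‖ = 1 := fun a' => by
    rw [hs, Complex.norm_real, Real.norm_eq_abs]
    exact norm_prod_sg H _
  have hW1 : ∀ n, |P4a7640Y.WW φ a H (win b c) n x| ≤ 1 := fun n =>
    P4a7640Y.abs_WW_le (fun p x => (hφ p x).le) n x
  set G : Finset ℕ := (Icc 1 N).filter (Good b c t K H) with hG
  have hFF : FC w H N y = ∑ n ∈ Icc 1 N, w n / N * P n := by
    unfold FC
    rw [Finset.sum_div]
    exact Finset.sum_congr rfl fun n _ => by ring
  have hsplit : FC w H N y = ∑ n ∈ G, w n / N * P n +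
        ∑ n ∈ (Icc 1 N).filter (fun n => ¬ Good b c t K H n), w n / N * P n := by
    rw [hFF, Finset.sum_filter_add_sum_filter_not]
  have b2 : |∑ n ∈ (Icc 1 N).filter (fun n => ¬ Good b c t K H n), w n / N * P n| ≤
      (((Icc 1 N).filter (fun n => ¬ Good b c t K H n)).card : ℝ) / N :=
    abs_sum_le' hw hl hP1 _
  -- the good integers
  set f : (Fin t → Option (Fin J × Fin J)) → ℕ → ℂ := fun ω n =>
    ((w n / N : ℝ) : ℂ) * Cn n ω *
      (fourier (θn n ω) x * (P4a7640Y.WW φ a H (win b c) n x : ℂ)) with hf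
  have hterm : ∀ n ∈ G, ((w n / N * P n : ℝ) : ℂ) =
      ((w n / N : ℝ) : ℂ) * s (cls b H n) * (P4a7640Y.WW φ a H (win b c) n x : ℂ) *
        (∏ p ∈ rest c H n, ((φ p (a p • x) : ℝ) : ℂ) - ∏ p ∈ rest c H n, tp (cc p) (a p • x)) +
      ∑ ω, s (cls b H n) * f ω n := by
    intro n hn
    obtain ⟨h1, h2⟩ := Finset.mem_filter.1 hn
    have h3 : 0 < n := by
      rw [Finset.mem_Icc] at h1
      omega
    have h4 : (P n : ℂ) = s (cls b H n) * ((P4a7640Y.WW φ a H (win b c) n x : ℂ) *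
        ∏ p ∈ rest c H n, ((φ p (a p • x) : ℝ) : ℂ)) := by
      have h5 := prod_split h3 hbc h2 hb hy
      rw [hP, hs]
      simp only
      rw [h5]
      push_cast
      rfl
    have h5 : ∑ ω, s (cls b H n) * f ω n = ((w n / N : ℝ) : ℂ) * s (cls b H n) *
        (P4a7640Y.WW φ a H (win b c) n x : ℂ) * ∏ p ∈ rest c H n, tp (cc p) (a p • x) := by
      rw [hexp n h1 h2 x, Finset.mul_sum]
      refine Finset.sum_congr rfl fun ω _ => ?_
      simp only [hf]
      ring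
    rw [h5, Complex.ofReal_mul, h4]
    ring
  have hsort : ∑ n ∈ G, ∑ ω, s (cls b H n) * f ω n = ∑ ω, ∑ a' ∈ G.image (cls b H),
      s a' * ∑ n ∈ Icc 1 N, (if Good b c t K H n ∧ cls b H n = a' then
        ((w n / N : ℝ) : ℂ) * Cn n ω else 0) *
          (fourier (θn n ω) x * (P4a7640Y.WW φ a H (win b c) n x : ℂ)) := by
    rw [Finset.sum_comm]
    refine Finset.sum_congr rfl fun ω _ => ?_
    rw [sort_cls G (cls b H) s (f ω)]
    refine Finset.sum_congr rfl fun a' _ => ?_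
    congr 1
    rw [hG, Finset.filter_filter, Finset.sum_filter]
    refine Finset.sum_congr rfl fun n _ => ?_
    by_cases h : Good b c t K H n ∧ cls b H n = a'
    · rw [if_pos h, if_pos h]
    · rw [if_neg h, if_neg h, zero_mul]
  have b3 : |∑ n ∈ G, w n / N * P n| ≤
      ∑ n ∈ G, (1:ℝ) / N *
        ∑ p ∈ rest c H n, ‖((φ p (a p • x) : ℝ) : ℂ) - tp (cc p) (a p • x)‖ +
      ∑ ω : Fin t → Option (Fin J × Fin J), ∑ a' ∈ G.image (cls b H),
          ‖∑ n ∈ Icc 1 N, (if Good b c t K H n ∧ cls b H n = a' then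
              ((w n / N : ℝ) : ℂ) * Cn n ω else 0) *
            (fourier (θn n ω) x * (P4a7640Y.WW φ a H (win b c) n x : ℂ))‖ := by
    rw [← Real.norm_eq_abs, ← Complex.norm_real, Complex.ofReal_sum, Finset.sum_congr rfl hterm,
      Finset.sum_add_distrib, hsort]
    refine (norm_add_le _ _).trans (add_le_add ?_ ?_)
    · refine (norm_sum_le _ _).trans (Finset.sum_le_sum fun n _ => ?_)
      rw [norm_mul, norm_mul, norm_mul, hs1, mul_one]
      have h1 : ‖((w n / N : ℝ) : ℂ)‖ ≤ 1 / N := by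
        rw [Complex.norm_real, Real.norm_eq_abs, abs_div, abs_of_pos hl]
        exact div_le_div_of_nonneg_right (hw n) hl.le
      have h2 : ‖(P4a7640Y.WW φ a H (win b c) n x : ℂ)‖ ≤ 1 := by
        rw [Complex.norm_real, Real.norm_eq_abs]
        exact hW1 n
      have h3 := prod_close (rest c H n) (z := fun p => ((φ p (a p • x) : ℝ) : ℂ))
        (w := fun p => tp (cc p) (a p • x)) (fun p _ => by
          rw [Complex.norm_real, Real.norm_eq_abs]
          exact (hφ p _).le) (fun p _ => hcc p _)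
      refine mul_le_mul ?_ h3 (norm_nonneg _) (by positivity)
      calc ‖((w n / N : ℝ) : ℂ)‖ * ‖(P4a7640Y.WW φ a H (win b c) n x : ℂ)‖
          ≤ 1 / N * 1 := mul_le_mul h1 h2 (norm_nonneg _) (by positivity)
        _ = 1 / N := mul_one _
    · refine (norm_sum_le _ _).trans (Finset.sum_le_sum fun ω _ => ?_)
      refine (norm_sum_le _ _).trans (Finset.sum_le_sum fun a' _ => ?_)
      rw [norm_mul, hs1, one_mul]
  rw [hsplit]
  have t2 := abs_add_le (∑ n ∈ G, w n / N * P n)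
    (∑ n ∈ (Icc 1 N).filter (fun n => ¬ Good b c t K H n), w n / N * P n)
  linarith

end Pool.Agent.Lib.P4a7640Ces
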