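import Mathlib
import Pool.Agent.Lib.P4a7640Ces.ClsB
import Pool.Agent.Lib.P4a7640X.ClsSum
import Pool.Agent.Lib.P4a7640X.HMom
import Pool.Agent.Lib.P4a7640X.CubeX
import Pool.Agent.Lib.P4a7640X.SumCls
import Pool.Agent.Lib.P4a7640X.ScaleD

/-!
# The measure of the set where the sum over the classes is large
-/

open Filter MeasureTheory Finset Topology

namespace Pool.Agent.Lib.P4a7640Ces

open Pool.Agent.Lib.P4a7640 Pool.Agent.Lib.P4a7640D Pool.Agent.Lib.P4a7640X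

theorem class_meas {H : Finset ℕ} (hne : H.Nonempty) {R b c K N : ℕ} {C₂ Cs ε : ℝ} (hC₂ : 0 < C₂)
    (hε : 0 ≤ ε) (hε1 : ε ≤ 1)
    (hcl : ∀ a' : ℕ → ℕ, Adm b K H a' → ∀ Q ⊆ win b c,
      |∑ n ∈ Icc 1 N, (1:ℝ) / N * (VA R b H a' n * uu H Q n)| ≤
        C₂ * qt b H a' * (Real.exp (-(2 * H.card * ∑ p ∈ Q, (1:ℝ) / p)) + ε))
    {𝒜 : Finset (ℕ → ℕ)} (h𝒜 : ∀ a' ∈ 𝒜, Adm b K H a') (hCs : ∑ a' ∈ 𝒜, qt b H a' ≤ Cs)
    {φ : ℕ → UnitAddCircle → ℝ} {a : ℕ → ℕ} (hφ : ∀ p, Measurable (φ p)) (hs : ∀ p x, |φ p x| = 1)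
    (hD : ∀ p ∈ win b c, p.Prime ∧ H.sup id < p) (hY : 0 < P4a7640Y.YM φ (win b c))
    {u : (ℕ → ℕ) → ℕ → ℂ} (hu : ∀ a', ∀ n ∈ Icc 1 N, ‖u a' n‖ ≤ (1:ℝ) / N * VA R b H a' n) (θ : ℕ → ℤ)
    {k : ℕ} (hk : 1 ≤ k) {lm : ℝ} (hlm : 0 < lm) :
    (volume {x : UnitAddCircle | lm < ∑ a' ∈ 𝒜, ‖∑ n ∈ Icc 1 N, u a' n *
      (fourier (θ n) x * (P4a7640Y.WW φ a H (win b c) n x : ℂ))‖}).toReal ≤
      (2 * (C₂ * Cs) / lm) ^ (2 * k) *
        ((Real.exp (-P4a7640Y.YM φ (win b c) / 2) + ε) ^ (2 * k) +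
          4 * (∫ τ, (P4a7640Y.YY φ a (win b c) τ - P4a7640Y.YM φ (win b c)) ^ 2 ∂P4a7640Y.P3) /
            P4a7640Y.YM φ (win b c) ^ 2) ^ ((1:ℝ) / 4) := by
  classical
  set D := win b c with hDdef
  set W : ℝ := (Real.exp (-P4a7640Y.YM φ D / 2) + ε) ^ (2 * k) +
    4 * (∫ τ, (P4a7640Y.YY φ a D τ - P4a7640Y.YM φ D) ^ 2 ∂P4a7640Y.P3) / P4a7640Y.YM φ D ^ 2 with hW
  have hint0 : 0 ≤ ∫ τ, (P4a7640Y.YY φ a D τ - P4a7640Y.YM φ D) ^ 2 ∂P4a7640Y.P3 :=
    integral_nonneg fun τ => sq_nonneg _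
  have hW0 : 0 ≤ W := by positivity
  have hG : ∀ a' ∈ 𝒜, 0 < C₂ * qt b H a' := fun a' ha' => mul_pos hC₂ (qt_pos (h𝒜 a' ha'))
  have hGs : ∑ a' ∈ 𝒜, C₂ * qt b H a' ≤ C₂ * Cs := by
    rw [← Finset.mul_sum]
    exact mul_le_mul_of_nonneg_left hCs hC₂.le
  set T : (ℕ → ℕ) → UnitAddCircle → ℝ := fun a' x => ‖∑ n ∈ Icc 1 N, u a' n *
      (fourier (θ n) x * (P4a7640Y.WW φ a H D n x : ℂ))‖ with hT
  have hWWm : ∀ n, Measurable (P4a7640Y.WW φ a H D n) := fun n => P4a7640Y.measurable_WW hφ n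
  have hWW1 : ∀ n x, |P4a7640Y.WW φ a H D n x| ≤ 1 := fun n x =>
    P4a7640Y.abs_WW_le (fun p x => (hs p x).le) n x
  have hTm : ∀ a', Measurable (T a') := fun a' => by
    refine Measurable.norm (Finset.measurable_fun_sum _ fun n _ => ?_)
    refine Measurable.const_mul (Measurable.mul ?_ ?_) _
    · exact (fourier (θ n)).continuous.measurable
    · exact Complex.measurable_ofReal.comp (hWWm n)
  have hV0 : ∀ a' n, 0 ≤ (1:ℝ) / N * VA R b H a' n := fun a' n =>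
    mul_nonneg (by positivity) (VA_nonneg _ _ _ _ _)
  -- a bound for `T` that does not matter
  have hTb : ∃ B : ℝ, ∀ a' ∈ 𝒜, ∀ x, T a' x ≤ B := by
    refine ⟨∑ a' ∈ 𝒜, ∑ n ∈ Icc 1 N, (1:ℝ) / N * VA R b H a' n, fun a' ha' x => ?_⟩
    have h1 : T a' x ≤ ∑ n ∈ Icc 1 N, (1:ℝ) / N * VA R b H a' n := by
      refine (norm_sum_le _ _).trans (Finset.sum_le_sum fun n hn => ?_)
      have hf : ‖(fourier (θ n) x : ℂ)‖ = 1 := Circle.norm_coe _
      rw [norm_mul, norm_mul, hf, one_mul, Complex.norm_real, Real.norm_eq_abs]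
      calc ‖u a' n‖ * |P4a7640Y.WW φ a H D n x| ≤ ‖u a' n‖ * 1 :=
            mul_le_mul_of_nonneg_left (hWW1 n x) (norm_nonneg _)
        _ ≤ _ := by rw [mul_one]; exact hu a' n hn
    refine h1.trans (Finset.single_le_sum (f := fun a' => ∑ n ∈ Icc 1 N, (1:ℝ) / N * VA R b H a' n)
      (fun a' _ => Finset.sum_nonneg fun n _ => hV0 a' n) ha')
  obtain ⟨B, hB⟩ := hTb
  set T' : (ℕ → ℕ) → UnitAddCircle → ℝ := fun a' x => if a' ∈ 𝒜 then T a' x else 0 with hT'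
  have hB0 : 𝒜.Nonempty → 0 ≤ B := by
    rintro ⟨a', ha'⟩
    exact (norm_nonneg _).trans (hB a' ha' 0)
  have hmain := sum_classes 𝒜 hG hGs (T := T') (fun a' => by
      by_cases h : a' ∈ 𝒜
      · simp only [hT', if_pos h]
        exact hTm a'
      · simp only [hT', if_neg h]
        exact measurable_const) (fun a' x => by
      simp only [hT']
      split_ifs
      · exact norm_nonneg _
      · exact le_rfl) (B := max B 0) (fun a' x => by
      simp only [hT']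
      split_ifs with h
      · exact (hB a' h x).trans (le_max_left _ _)
      · exact le_max_right _ _) hk (E := W ^ ((1:ℝ) / 4)) (Real.rpow_nonneg hW0 _) (fun a' ha' => by
      simp only [hT', if_pos ha']
      have hadm := h𝒜 a' ha'
      have hGa := hG a' ha'
      -- the sum of the weights
      have hsum : ∑ n ∈ Icc 1 N, (1:ℝ) / N * VA R b H a' n ≤ 2 * (C₂ * qt b H a') := by
        have h1 := hcl a' hadm ∅ (Finset.empty_subset _)
        have h2 : ∀ n, uu H ∅ n = 1 := by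
          intro n
          unfold uu KK
          rw [Finset.filter_empty, Finset.card_empty, pow_zero]
        simp only [h2, mul_one, Finset.sum_empty, mul_zero, neg_zero, Real.exp_zero] at h1
        have h3 := (le_abs_self _).trans h1
        refine h3.trans ?_
        nlinarith
      have hcube := cube_bound (φ := φ) (a := a) (H := H) (D := D) hφ hs hne hD (Icc 1 N)
        (v := fun n => (1:ℝ) / N * VA R b H a' n) (fun n _ => hV0 a' n) hGa hε hsum
        (fun Q hQ => by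
          have h1 := hcl a' hadm Q hQ
          refine le_trans (le_of_eq ?_) h1
          congr 1
          exact Finset.sum_congr rfl fun n _ => by ring) hY k
      have hmom := high_moment (φ := φ) (a := a) (H := H) (D := D) hφ (fun p x => (hs p x).le)
        (Icc 1 N) (v := fun n => (1:ℝ) / N * VA R b H a' n) (fun n _ => hV0 a' n)
        (u := u a') (fun n hn => hu a' n hn) θ k
      have h4 : (W ^ ((1:ℝ) / 4)) ^ 4 = W := rpow_quarter_pow hW0
      rw [h4]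
      refine hmom.trans ?_
      have h5 : (∑ n ∈ Icc 1 N, (1:ℝ) / N * VA R b H a' n) ^ (6 * k) ≤
          (2 * (C₂ * qt b H a')) ^ (6 * k) :=
        pow_le_pow_left₀ (Finset.sum_nonneg fun n _ => hV0 a' n) hsum _
      calc (∑ n ∈ Icc 1 N, (1:ℝ) / N * VA R b H a' n) ^ (6 * k) *
            ∫ τ, (∑ n ∈ Icc 1 N, (1:ℝ) / N * VA R b H a' n * P4a7640Y.KK φ a H D n τ) ^ (2 * k)
              ∂P4a7640Y.P3
          ≤ (2 * (C₂ * qt b H a')) ^ (6 * k) * ((2 * (C₂ * qt b H a')) ^ (2 * k) * W) := by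
            refine mul_le_mul h5 hcube (integral_nonneg fun τ => ?_) (by positivity)
            exact (even_two_mul k).pow_nonneg _
        _ = (2 * (C₂ * qt b H a')) ^ (8 * k) * W := by
            rw [← mul_assoc, ← pow_add]
            congr 2
            ring) hlm
  refine le_trans (le_of_eq ?_) hmain
  congr 2
  ext x
  simp only [Set.mem_ofPred_eq]
  have h1 : ∑ a' ∈ 𝒜, T a' x = ∑ a' ∈ 𝒜, T' a' x :=
    Finset.sum_congr rfl fun a' ha' => by simp only [hT', if_pos ha']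
  rw [← h1]

end Pool.Agent.Lib.P4a7640Ces
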