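import Mathlib
import Pool.Agent.Lib.P4a7640Ces.Par
import Pool.Agent.Lib.P4a7640X.WinM

/-!
# Changes of signs at few large primes, natural averages
-/

open Filter MeasureTheory Finset Topology

namespace Pool.Agent.Lib.P4a7640Ces

open Pool.Agent.Lib.P4a7640 Pool.Agent.Lib.P4a7640D Pool.Agent.Lib.P4a7640X

private lemma winm_FC_compare {w : ℕ → ℝ} (hw : ∀ n, |w n| ≤ 1) {f g : SS} {H E : Finset ℕ} {N : ℕ}
    (hN : 1 ≤ N)
    (h : ∀ n ∈ Finset.Icc 1 N, ∀ j ∈ H, rnd f (n + j) ≠ rnd g (n + j) → ∃ p ∈ E, p ∣ n + j) :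
    |FC w H N f - FC w H N g| ≤
      (∑ j ∈ H, ∑ p ∈ E, 2 * (((Icc 1 N).filter fun n => p ∣ n + j).card : ℝ)) / N := by
  have hl : (0:ℝ) < N := by exact_mod_cast hN
  have hpt : ∀ n ∈ Finset.Icc 1 N, |prodSeq (rnd f) H n - prodSeq (rnd g) H n| ≤
      ∑ j ∈ H, ∑ p ∈ E, (if p ∣ n + j then (2:ℝ) else 0) := by
    intro n hn
    have hnn : ∀ j ∈ H, 0 ≤ ∑ p ∈ E, (if p ∣ n + j then (2:ℝ) else 0) := fun j _ =>
      Finset.sum_nonneg fun p _ => by split_ifs <;> norm_num
    by_cases hall : ∀ j ∈ H, rnd f (n + j) = rnd g (n + j)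
    · have h1 : prodSeq (rnd f) H n = prodSeq (rnd g) H n := by
        unfold prodSeq
        exact Finset.prod_congr rfl fun j hj => by rw [hall j hj]
      rw [h1, sub_self, abs_zero]
      exact Finset.sum_nonneg hnn
    · push Not at hall
      obtain ⟨j, hj, hne⟩ := hall
      obtain ⟨p, hp, hpd⟩ := h n hn j hj hne
      have h2 : (2:ℝ) ≤ ∑ p ∈ E, (if p ∣ n + j then (2:ℝ) else 0) := by
        have := Finset.single_le_sum (f := fun p => if p ∣ n + j then (2:ℝ) else 0)
          (fun q _ => by split_ifs <;> norm_num) hp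
        simpa [hpd] using this
      calc |prodSeq (rnd f) H n - prodSeq (rnd g) H n| ≤
            |prodSeq (rnd f) H n| + |prodSeq (rnd g) H n| := abs_sub _ _
        _ = 2 := by rw [abs_prodSeq, abs_prodSeq]; norm_num
        _ ≤ ∑ p ∈ E, (if p ∣ n + j then (2:ℝ) else 0) := h2
        _ ≤ _ := Finset.single_le_sum (f := fun j => ∑ p ∈ E, (if p ∣ n + j then (2:ℝ) else 0))
            hnn hj
  have e1 : FC w H N f - FC w H N g =
      (∑ n ∈ Finset.Icc 1 N, w n * (prodSeq (rnd f) H n - prodSeq (rnd g) H n)) / N := by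
    unfold FC
    rw [← sub_div, ← Finset.sum_sub_distrib]
    congr 1
    exact Finset.sum_congr rfl fun n _ => by unfold prodSeq; ring
  rw [e1, abs_div, abs_of_pos hl]
  apply div_le_div_of_nonneg_right _ hl.le
  calc |∑ n ∈ Finset.Icc 1 N, w n * (prodSeq (rnd f) H n - prodSeq (rnd g) H n)|
      ≤ ∑ n ∈ Finset.Icc 1 N, |w n * (prodSeq (rnd f) H n - prodSeq (rnd g) H n)| :=
        Finset.abs_sum_le_sum_abs _ _
    _ ≤ ∑ n ∈ Finset.Icc 1 N, (∑ j ∈ H, ∑ p ∈ E, (if p ∣ n + j then (2:ℝ) else 0)) := by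
        refine Finset.sum_le_sum fun n hn => ?_
        rw [abs_mul]
        calc |w n| * |prodSeq (rnd f) H n - prodSeq (rnd g) H n|
            ≤ 1 * |prodSeq (rnd f) H n - prodSeq (rnd g) H n| :=
              mul_le_mul_of_nonneg_right (hw n) (abs_nonneg _)
          _ = |prodSeq (rnd f) H n - prodSeq (rnd g) H n| := one_mul _
          _ ≤ _ := hpt n hn
    _ = ∑ j ∈ H, ∑ p ∈ E, ∑ n ∈ Finset.Icc 1 N, (if p ∣ n + j then (2:ℝ) else 0) := by
        rw [Finset.sum_comm]
        refine Finset.sum_congr rfl fun j _ => ?_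
        rw [Finset.sum_comm]
    _ = ∑ j ∈ H, ∑ p ∈ E, 2 * (((Icc 1 N).filter fun n => p ∣ n + j).card : ℝ) := by
        refine Finset.sum_congr rfl fun j _ => Finset.sum_congr rfl fun p _ => ?_
        rw [← Finset.sum_filter, Finset.sum_const, nsmul_eq_mul, mul_comm]

theorem FC_change (H : Finset ℕ) (j : ℕ) : ∀ᶠ N : ℕ in atTop, ∀ w : ℕ → ℝ, (∀ n, |w n| ≤ 1) →
    ∀ y y' : SS, (∀ p : ℕ, p.Prime → be p < be N - j → y p = y' p) →
    |FC w H N y - FC w H N y'| ≤ 4 * H.card *
      (∑ p ∈ (Icc 1 N).filter (fun p => p.Prime ∧ be N - j ≤ be p ∧ y p ≠ y' p), (1:ℝ) / p +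
        (H.sup id : ℕ) / N) := by
  set hm := H.sup id with hhm
  filter_upwards [eventually_ge_atTop hm, eventually_ge_atTop 2] with N hT hN
  intro w hw y y' hyy
  have hN0 : (0:ℝ) < N := by exact_mod_cast (by omega : 0 < N)
  have hH : ∀ h ∈ H, h ≤ hm := fun h hh => Finset.le_sup (f := id) hh
  set b := be N - j with hb
  set E := (Finset.Icc 1 (N + hm)).filter (fun p => p.Prime ∧ b ≤ be p ∧ y p ≠ y' p) with hE
  have hcmp := winm_FC_compare hw (f := y) (g := y') (H := H) (E := E) (N := N) (by omega) (by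
      intro n hn h hh hne
      rw [Finset.mem_Icc] at hn
      by_contra hcon
      push Not at hcon
      apply hne
      unfold rnd Finsupp.prod
      refine Finset.prod_congr rfl fun p hp => ?_
      rw [Nat.support_factorization, Nat.mem_primeFactors] at hp
      suffices hs : y p = y' p by
        show y p ^ _ = y' p ^ _
        rw [hs]
      by_contra hcon2
      rcases Nat.lt_or_ge (be p) b with h1 | h1
      · exact hcon2 (hyy p hp.1 h1)
      · have hple : p ≤ N + hm := by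
          have h2 := Nat.le_of_dvd (by omega) hp.2.1
          have h3 := hH h hh
          omega
        exact hcon p (by
          rw [hE, Finset.mem_filter, Finset.mem_Icc]
          exact ⟨⟨hp.1.one_lt.le, hple⟩, hp.1, h1, hcon2⟩) hp.2.1)
  refine hcmp.trans ?_
  have hEmass : ∑ p ∈ E, (1:ℝ) / p ≤
      ∑ p ∈ (Icc 1 N).filter (fun p => p.Prime ∧ b ≤ be p ∧ y p ≠ y' p), (1:ℝ) / p + hm / N := by
    have hsub : E ⊆ (Icc 1 N).filter (fun p => p.Prime ∧ b ≤ be p ∧ y p ≠ y' p) ∪
        Finset.Ioc N (N + hm) := by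
      intro p hp
      rw [hE, Finset.mem_filter, Finset.mem_Icc] at hp
      rw [Finset.mem_union, Finset.mem_filter, Finset.mem_Icc, Finset.mem_Ioc]
      rcases Nat.lt_or_ge N p with h1 | h1
      · exact Or.inr ⟨h1, hp.1.2⟩
      · exact Or.inl ⟨⟨hp.1.1, h1⟩, hp.2⟩
    calc ∑ p ∈ E, (1:ℝ) / p ≤ ∑ p ∈ (Icc 1 N).filter
          (fun p => p.Prime ∧ b ≤ be p ∧ y p ≠ y' p) ∪ Finset.Ioc N (N + hm), (1:ℝ) / p :=
          Finset.sum_le_sum_of_subset_of_nonneg hsub fun _ _ _ => by positivity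
      _ ≤ ∑ p ∈ (Icc 1 N).filter (fun p => p.Prime ∧ b ≤ be p ∧ y p ≠ y' p), (1:ℝ) / p +
          ∑ p ∈ Finset.Ioc N (N + hm), (1:ℝ) / p := by
          rw [← Finset.sum_union_inter]
          have : 0 ≤ ∑ p ∈ (Icc 1 N).filter (fun p => p.Prime ∧ b ≤ be p ∧ y p ≠ y' p) ∩
            Finset.Ioc N (N + hm), (1:ℝ) / p := Finset.sum_nonneg fun _ _ => by positivity
          linarith
      _ ≤ _ := by
          apply add_le_add le_rfl
          calc ∑ p ∈ Finset.Ioc N (N + hm), (1:ℝ) / p ≤ ∑ p ∈ Finset.Ioc N (N + hm), (1:ℝ) / N := by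
                refine Finset.sum_le_sum fun p hp => ?_
                rw [Finset.mem_Ioc] at hp
                apply one_div_le_one_div_of_le hN0
                exact_mod_cast hp.1.le
            _ = hm / N := by
                rw [Finset.sum_const, Nat.card_Ioc, nsmul_eq_mul]
                simp only [Nat.add_sub_cancel_left]
                ring
  calc (∑ h ∈ H, ∑ p ∈ E, 2 * (((Icc 1 N).filter fun n => p ∣ n + h).card : ℝ)) / N
      ≤ (∑ h ∈ H, ∑ p ∈ E, 2 * ((1:ℝ) / p * (2 * (N:ℝ)))) / (N:ℝ) := by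
        apply div_le_div_of_nonneg_right _ hN0.le
        refine Finset.sum_le_sum fun h hh => Finset.sum_le_sum fun p hp => ?_
        rw [hE, Finset.mem_filter, Finset.mem_Icc] at hp
        apply mul_le_mul_of_nonneg_left _ (by norm_num)
        refine (card_mult_le N h hp.1.1).trans ?_
        have h2 : (N + h : ℝ) ≤ 2 * N := by
          have : (h:ℝ) ≤ N := by exact_mod_cast (hH h hh).trans hT
          linarith
        calc (N + h : ℝ) / p ≤ (2 * N) / p := div_le_div_of_nonneg_right h2 (by positivity)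
          _ = _ := by ring
    _ = 4 * H.card * ∑ p ∈ E, (1:ℝ) / p := by
        rw [Finset.sum_const, nsmul_eq_mul, ← Finset.mul_sum, ← Finset.sum_mul]
        field_simp
        ring
    _ ≤ _ := by
        apply mul_le_mul_of_nonneg_left hEmass
        positivity

end Pool.Agent.Lib.P4a7640Ces
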