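import Mathlib
import Pool.Agent.Lib.P4a7640Ces.Scale
import Pool.Agent.Lib.P4a7640Ces.WinM
import Pool.Agent.Lib.P4a7640X.RealX

/-!
# The bound at one scale, real frequencies, natural averages
-/

open Filter MeasureTheory Finset Topology

namespace Pool.Agent.Lib.P4a7640Ces

open Pool.Agent.Lib.P4a7640 Pool.Agent.Lib.P4a7640D Pool.Agent.Lib.P4a7640X
open Pool.Agent.Lib.P4a7640X.RealXAux

theorem real_bound (k : ℕ) {K κ : ℝ} (hK : 0 < K) (hκ : 0 < κ) (hκ1 : κ ≤ 1) {a : ℕ → ℝ}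
    (ha0 : ∀ p, 0 ≤ a p) (ha : P4a7640K.Cnt K κ a) {δ : ℝ} (hδ : 0 < δ) {H : Finset ℕ}
    (hH : H.Nonempty) {η : ℝ} (hη : 0 < η) : ∃ j₀ : ℕ, ∀ j ≥ j₀, ∃ c' : ℝ, 0 < c' ∧ ∀ᶠ N : ℕ in atTop,
    ∀ (A : ℕ → Set ℝ) (g : ℕ → ℤˣ) (w : ℕ → ℝ) (u : ℝ), (∀ p, P4a7640Y.KInt k (A p)) →
      (∀ p, δ ≤ P4a7640Y.dl (A p)) → (∀ n, |w n| ≤ 1) →
      ∃ E : Set ℝ, MeasurableSet E ∧ E ⊆ Set.Ico u (u + 1) ∧
        (volume E).toReal ≤ Real.exp (-(c' * Real.log N)) ∧
        ∀ α ∈ Set.Ico u (u + 1), α ∉ E → ∀ y : SS,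
          (∀ p : ℕ, p.Prime → be N - j ≤ be p → y p = g p * P4a7640K.xr A a α p) →
          |FC w H N y| ≤ η := by
  classical
  obtain ⟨C₀, hC₀, hsum⟩ := P4a7640K.sum_cnt hK hκ hκ1
  obtain ⟨ck, hck, hkap⟩ := P4a7640Y.kap_kint k
  obtain ⟨V₀, i, j₀, hcirc⟩ := circle_bound (K₀ := 2 * K) (κ := κ) (C := 4 * (k:ℝ) + 4)
    (by positivity) hκ hκ1 (by positivity) hH (half_pos hη)
  obtain ⟨j₁, hwin⟩ := win_mass i (|V₀| / (ck * δ) + C₀)
  refine ⟨max j₀ j₁, fun j hj => ?_⟩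
  obtain ⟨c₁, hc₁, hev⟩ := hcirc j (le_trans (le_max_left _ _) hj)
  obtain ⟨Ct, hCt, htop⟩ := top_mass_le j
  have hHc : (0:ℝ) < H.card := by exact_mod_cast hH.card_pos
  set ε : ℝ := η / (16 * H.card) with hε
  have hε0 : 0 < ε := by positivity
  have hlogN : Tendsto (fun N : ℕ => Real.log (N:ℝ)) atTop atTop :=
    Real.tendsto_log_atTop.comp tendsto_natCast_atTop_atTop
  have hsmall : ∀ᶠ N : ℕ in atTop, ((H.sup id : ℕ) : ℝ) / N ≤ ε := by
    filter_upwards [tendsto_natCast_atTop_atTop.eventually_ge_atTop (((H.sup id : ℕ) : ℝ) / ε),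
      eventually_gt_atTop 0] with N h1 h2
    have h3 : (0:ℝ) < N := by exact_mod_cast h2
    rw [div_le_iff₀ h3]
    rw [div_le_iff₀ hε0] at h1
    linarith
  set D : ℝ := 2 + (16 * (k:ℝ) + 16) * Ct / ε with hD
  have hD0 : 0 < D := by positivity
  refine ⟨c₁ / 4, by positivity, ?_⟩
  filter_upwards [hev, hwin j (le_trans (le_max_right _ _) hj), htop, FC_change H j, hsmall,
    hlogN.eventually_ge_atTop (4 / c₁ * Real.log D), hlogN.eventually_ge_atTop 1]
    with N g1 g2 g3 g4 g5 g6 g7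
  intro A g w u hA hδA hw
  have hlog0 : 0 < Real.log N := by linarith
  set L : ℕ := ⌈Real.exp (c₁ / 2 * Real.log N)⌉₊ with hL
  have hL0 : 0 < L := Nat.ceil_pos.2 (Real.exp_pos _)
  have hL0' : (0:ℝ) < L := by exact_mod_cast hL0
  have hLge : Real.exp (c₁ / 2 * Real.log N) ≤ L := Nat.le_ceil _
  have hLle : (L:ℝ) ≤ 2 * Real.exp (c₁ / 2 * Real.log N) := by
    have e1 := (Nat.ceil_lt_add_one (Real.exp_pos (c₁ / 2 * Real.log N)).le).le
    have e2 : 1 ≤ Real.exp (c₁ / 2 * Real.log N) := Real.one_le_exp (by positivity)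
    rw [← hL] at e1
    linarith
  -- the functions on the circle
  set b : ℕ → ℕ := fun p => if ⌊a p⌋₊ = 0 then 1 else ⌊a p⌋₊ with hb
  set φ : ℕ → ℕ → UnitAddCircle → ℝ := fun l p =>
    if ⌊a p⌋₊ = 0 then
      fun _ => sg (g p) * P4a7640K.phR (A p) (P4a7640K.cut u L l * Int.fract (a p)) 0
    else fun x => sg (g p) * P4a7640K.phR (A p) (P4a7640K.cut u L l * Int.fract (a p)) x with hφ
  have hφm : ∀ l p, Measurable (φ l p) := by
    intro l p
    simp only [hφ]
    split_ifs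
    · exact measurable_const
    · exact (P4a7640K.measurable_phR (hA p).measurableSet _).const_mul _
  have hφ1 : ∀ l p x, |φ l p x| = 1 := by
    intro l p x
    simp only [hφ]
    split_ifs
    · rw [abs_mul, abs_sg, P4a7640K.abs_phR, one_mul]
    · rw [abs_mul, abs_sg, P4a7640K.abs_phR, one_mul]
  have hφL : ∀ l p, P4a7640Y.LL1 (4 * (k:ℝ) + 4) (φ l p) := by
    intro l p
    simp only [hφ]
    split_ifs
    · exact P4a7640K.LL1_const (by positivity) _
    · exact LL1_mul (abs_sg _) (P4a7640K.lip_phR (hA p) _)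
  have hb0 : ∀ p, b p ≠ 0 := by
    intro p
    simp only [hb]
    split_ifs with h
    · exact one_ne_zero
    · exact h
  have hbC : P4a7640K.CntN (2 * K) κ b := (ha.floor ha0).one
  have hY : ∀ l, V₀ ≤ P4a7640Y.YM (φ l) (win (be N - j) (be N - i)) := by
    intro l
    set W := win (be N - j) (be N - i) with hW
    have hWp : ∀ p ∈ W, p.Prime := fun p hp => (Finset.mem_filter.1 hp).2.1
    have e1 : ∑ p ∈ W, (1:ℝ) / p ≤ ∑ p ∈ W.filter (fun p => ¬ ⌊a p⌋₊ = 0), (1:ℝ) / p + C₀ := by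
      rw [← Finset.sum_filter_add_sum_filter_not W (fun p => ⌊a p⌋₊ = 0), add_comm]
      have e2 := hsum _ (ha.floor ha0) 0 1 le_rfl (W.filter (fun p => ⌊a p⌋₊ = 0)) (fun p hp => by
        obtain ⟨h1, h2⟩ := Finset.mem_filter.1 hp
        exact ⟨hWp p h1, by exact_mod_cast (hWp p h1).one_lt.le, h2⟩)
      rw [Real.one_rpow, div_one] at e2
      linarith
    have e3 : ck * δ * ∑ p ∈ W.filter (fun p => ¬ ⌊a p⌋₊ = 0), (1:ℝ) / p ≤
        P4a7640Y.YM (φ l) W := by
      unfold P4a7640Y.YM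
      rw [Finset.mul_sum]
      refine le_trans ?_ (Finset.sum_le_sum_of_subset_of_nonneg (Finset.filter_subset
        (fun p => ¬ ⌊a p⌋₊ = 0) W) fun p _ _ => div_nonneg (sub_nonneg.2
          (P4a7640Y.kap_le fun x => (hφ1 l p x).le)) (Nat.cast_nonneg p))
      refine Finset.sum_le_sum fun p hp => ?_
      have h0 : ¬ ⌊a p⌋₊ = 0 := (Finset.mem_filter.1 hp).2
      have h1 : P4a7640Y.kap (φ l p) = P4a7640Y.kap (P4a7640Y.phiC (A p)) := by
        simp only [hφ, if_neg h0]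
        rw [kap_mul (abs_sg _), P4a7640K.kap_phR]
      rw [h1, mul_one_div]
      refine div_le_div_of_nonneg_right ?_ (Nat.cast_nonneg p)
      exact (mul_le_mul_of_nonneg_left (hδA p) hck.le).trans (hkap _ (hA p))
    have e4 : |V₀| / (ck * δ) ≤ ∑ p ∈ W.filter (fun p => ¬ ⌊a p⌋₊ = 0), (1:ℝ) / p := by
      linarith
    rw [div_le_iff₀ (by positivity)] at e4
    calc V₀ ≤ |V₀| := le_abs_self _
      _ ≤ _ := e4
      _ = ck * δ * ∑ p ∈ W.filter (fun p => ¬ ⌊a p⌋₊ = 0), (1:ℝ) / p := mul_comm _ _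
      _ ≤ _ := e3
  choose E hEm hEv hE using fun l => g1 (φ l) b w (hφm l) (hφ1 l) (hφL l) hb0 hbC hw (hY l)
  set T : Finset ℕ := (Icc 1 N).filter (fun p => p.Prime ∧ be N - j ≤ be p) with hT
  have hTM : ∑ p ∈ T, (1:ℝ) / p ≤ Ct := by
    refine le_trans (Finset.sum_le_sum_of_subset_of_nonneg ?_ fun p _ _ => by positivity) g3
    intro p hp
    obtain ⟨h1, h2⟩ := Finset.mem_filter.1 hp
    obtain ⟨h3, h4⟩ := Finset.mem_Icc.1 h1
    exact Finset.mem_filter.2 ⟨Finset.mem_Icc.2 ⟨h3, by omega⟩, h2⟩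
  obtain ⟨B, hBm, hBsub, hBv, hBfin, hB⟩ := bad_change hA ha0 u hL0 T hTM hε0
  set Q : Set ℝ := ⋃ l ∈ Finset.range L,
    ((fun α : ℝ => (α : UnitAddCircle)) ⁻¹' E l ∩ Set.Ico u (u + 1)) with hQ
  have hQfin : ∀ l, volume ((fun α : ℝ => (α : UnitAddCircle)) ⁻¹' E l ∩ Set.Ico u (u + 1)) ≠ ⊤ := by
    intro l
    refine ne_top_of_le_ne_top ?_ (measure_mono Set.inter_subset_right)
    rw [Real.volume_Ico]
    exact ENNReal.ofReal_ne_top
  have hQle : volume Q ≤ ∑ l ∈ Finset.range L,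
      volume ((fun α : ℝ => (α : UnitAddCircle)) ⁻¹' E l ∩ Set.Ico u (u + 1)) :=
    measure_biUnion_finset_le _ _
  have hsfin : ∑ l ∈ Finset.range L,
      volume ((fun α : ℝ => (α : UnitAddCircle)) ⁻¹' E l ∩ Set.Ico u (u + 1)) ≠ ⊤ :=
    (ENNReal.sum_lt_top.2 fun l _ => (hQfin l).lt_top).ne
  have hQv : (volume Q).toReal ≤ L * Real.exp (-(c₁ * Real.log N)) := by
    refine (ENNReal.toReal_mono hsfin hQle).trans ?_
    rw [ENNReal.toReal_sum fun l _ => hQfin l]
    refine (Finset.sum_le_sum fun l _ => ((vol_pre (hEm l) u).2.trans (hEv l))).trans ?_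
    rw [Finset.sum_const, Finset.card_range, nsmul_eq_mul]
  refine ⟨Q ∪ B, (Finset.measurableSet_biUnion _ fun l _ => (vol_pre (hEm l) u).1).union hBm,
    Set.union_subset (Set.iUnion₂_subset fun l _ => Set.inter_subset_right) hBsub, ?_, ?_⟩
  · have h1 : (volume (Q ∪ B)).toReal ≤ (volume Q).toReal + (volume B).toReal := by
      rw [← ENNReal.toReal_add (ne_top_of_le_ne_top hsfin hQle) hBfin]
      exact ENNReal.toReal_mono (ENNReal.add_ne_top.2 ⟨ne_top_of_le_ne_top hsfin hQle, hBfin⟩)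
        (measure_union_le _ _)
    have h2 : (L:ℝ) * Real.exp (-(c₁ * Real.log N)) ≤ 2 * Real.exp (-(c₁ / 2 * Real.log N)) := by
      calc (L:ℝ) * Real.exp (-(c₁ * Real.log N))
          ≤ 2 * Real.exp (c₁ / 2 * Real.log N) * Real.exp (-(c₁ * Real.log N)) :=
            mul_le_mul_of_nonneg_right hLle (Real.exp_pos _).le
        _ = 2 * Real.exp (-(c₁ / 2 * Real.log N)) := by
            rw [mul_assoc, ← Real.exp_add]
            congr 2
            ring
    have h3 : (16 * (k:ℝ) + 16) * Ct / (L * ε) ≤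
        (16 * (k:ℝ) + 16) * Ct / ε * Real.exp (-(c₁ / 2 * Real.log N)) := by
      rw [Real.exp_neg, ← div_eq_mul_inv, div_div, mul_comm (L:ℝ) ε]
      refine div_le_div_of_nonneg_left (by positivity) (by positivity) ?_
      exact mul_le_mul_of_nonneg_left hLge hε0.le
    have h4 : D * Real.exp (-(c₁ / 2 * Real.log N)) ≤ Real.exp (-(c₁ / 4 * Real.log N)) := by
      have e1 : Real.log D ≤ c₁ / 4 * Real.log N := by
        have e2 := mul_le_mul_of_nonneg_left g6 (show 0 ≤ c₁ / 4 by positivity)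
        have e3 : c₁ / 4 * (4 / c₁ * Real.log D) = Real.log D := by field_simp
        linarith
      calc D * Real.exp (-(c₁ / 2 * Real.log N))
          = Real.exp (Real.log D + -(c₁ / 2 * Real.log N)) := by
            rw [Real.exp_add, Real.exp_log hD0]
        _ ≤ _ := Real.exp_le_exp.2 (by linarith)
    have h5 : D * Real.exp (-(c₁ / 2 * Real.log N)) = 2 * Real.exp (-(c₁ / 2 * Real.log N)) +
        (16 * (k:ℝ) + 16) * Ct / ε * Real.exp (-(c₁ / 2 * Real.log N)) := by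
      rw [hD]
      ring
    linarith
  · intro α hα hαE y hy
    rw [Set.mem_union, not_or] at hαE
    obtain ⟨l, hl, hαl⟩ := exists_arc hL0 hα
    set y' : SS := fun p => if be p < be N - j then y p
      else g p * P4a7640K.xi A a (P4a7640K.cut u L l) α p with hy'
    have h1 : |FC w H N y'| ≤ η / 2 := by
      refine hE l (α : UnitAddCircle) (fun hin => ?_) y' fun p hp hbe => ?_
      · exact hαE.1 (Set.mem_biUnion (Finset.mem_range.2 hl) ⟨hin, hα⟩)
      · simp only [hy', if_neg (not_lt.2 hbe)]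
        rw [sg_mul, sg_xi]
        simp only [hφ, hb]
        by_cases h0 : ⌊a p⌋₊ = 0
        · rw [if_pos h0]
          unfold P4a7640K.phR
          rw [zero_add, P4a7640Y.phiC_coe, h0, Nat.cast_zero, mul_zero, zero_add]
        · rw [if_neg h0, if_neg h0]
          unfold P4a7640K.phR
          have h2 : ⌊a p⌋₊ • (α : UnitAddCircle) +
              ((P4a7640K.cut u L l * Int.fract (a p) : ℝ) : UnitAddCircle) =
              ((α * (⌊a p⌋₊ : ℝ) + P4a7640K.cut u L l * Int.fract (a p) : ℝ) : UnitAddCircle) := by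
            rw [AddCircle.coe_add, ← AddCircle.coe_nsmul, nsmul_eq_mul, mul_comm α]
          rw [h2, P4a7640Y.phiC_coe]
    have h2 := g4 w hw y y' (fun p _ hbe => by simp only [hy', if_pos hbe])
    have h3 : ∑ p ∈ (Icc 1 N).filter (fun p => p.Prime ∧ be N - j ≤ be p ∧ y p ≠ y' p),
        (1:ℝ) / p ≤ ε := by
      refine hB l hl α hαl hαE.2 _ ?_ ?_
      · intro p hp
        obtain ⟨h4, h5, h6, -⟩ := Finset.mem_filter.1 hp
        exact Finset.mem_filter.2 ⟨h4, h5, h6⟩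
      · intro p hp h7
        obtain ⟨h4, h5, h6, h8⟩ := Finset.mem_filter.1 hp
        apply h8
        simp only [hy', if_neg (not_lt.2 h6)]
        rw [hy p h5 h6, h7]
    have h4 : 4 * (H.card : ℝ) * (∑ p ∈ (Icc 1 N).filter
        (fun p => p.Prime ∧ be N - j ≤ be p ∧ y p ≠ y' p), (1:ℝ) / p + (H.sup id : ℕ) / N) ≤
        η / 2 := by
      calc _ ≤ 4 * (H.card : ℝ) * (ε + ε) :=
            mul_le_mul_of_nonneg_left (add_le_add h3 g5) (by positivity)
        _ = η / 2 := by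
            rw [hε]
            field_simp
            ring
    have h5 := h2.trans h4
    have h6 : |FC w H N y| ≤ |FC w H N y - FC w H N y'| + |FC w H N y'| := by
      have := abs_add_le (FC w H N y - FC w H N y') (FC w H N y')
      rwa [sub_add_cancel] at this
    linarith

end Pool.Agent.Lib.P4a7640Ces
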