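import Mathlib
import Pool.Agent.Lib.P4a7640Ces.RealX
import Pool.Agent.Lib.P4a7640Ces.Mass
import Pool.Agent.Lib.P4a7640X.AllA

/-!
# All sets at once, natural averages

As P4a7640X/AllA.lean; the mass of the primes of a cell is bounded by the logarithmic mean `TC` at the
scale `N ^ 2`.
-/

open Filter MeasureTheory Finset Topology

namespace Pool.Agent.Lib.P4a7640Ces

open Pool.Agent.Lib.P4a7640 Pool.Agent.Lib.P4a7640D Pool.Agent.Lib.P4a7640X

namespace AllCAux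

open Pool.Agent.Lib.P4a7640M Pool.Agent.Lib.P4a7640V Pool.Agent.Lib.P4a7640X.AllAAux

/-- one point: from the grid sets to all sets -/
lemma bound_of {k : ℕ} {a : ℕ → ℝ} {δ : ℝ} {H : Finset ℕ} {N m : ℕ} {w : ℕ → ℝ}
    (hw : ∀ n, |w n| ≤ 1) {η : ℝ} (hη : 0 < η) {α : ℝ} {g : ℕ → ℤˣ} {G : ℕ} (hG : 0 < G)
    (hGδ : (2 * k : ℝ) / G ≤ δ / 2) {y₀ : ℝ} (hy₀ : y₀ < (2:ℝ) ^ (2 ^ m : ℕ))
    (hch : ∀ w : ℕ → ℝ, (∀ n, |w n| ≤ 1) → ∀ y y' : SS, (∀ p : ℕ, p.Prime → be p < m → y p = y' p) →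
      |FC w H N y - FC w H N y'| ≤ 4 * H.card *
        (∑ p ∈ (Icc 1 N).filter (fun p => p.Prime ∧ m ≤ be p ∧ y p ≠ y' p), (1:ℝ) / p +
          (H.sup id : ℕ) / N))
    (hsm : ((H.sup id : ℕ) : ℝ) / N ≤ η / (16 * (H.card + 1)))
    (h1 : ∀ i : Fin (3 * k) → Fin (G + 1) × Fin (G + 1), δ / 2 ≤ P4a7640Y.dl (GS G (3 * k) i) →
      ∀ y : SS, (∀ p : ℕ, p.Prime → m ≤ be p →
        y p = g p * P4a7640K.xr (AN a (GS G (3 * k) i)) (fun p => |a p|) α p) → |FC w H N y| ≤ η / 2)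
    (h2 : ∀ c < G, TC {0} (N ^ 2) y₀ G c (fun p => α * a p) ≤ η / (128 * (H.card + 1) * (k + 1)))
    {A : Set ℝ} (hA : P4a7640Y.KInt k A) (hδA : δ ≤ P4a7640Y.dl A) {y : SS}
    (hy : ∀ p : ℕ, p.Prime → m ≤ be p → y p = g p * P4a7640K.xr (fun _ => A) a α p) :
    |FC w H N y| ≤ η := by
  classical
  obtain ⟨i, -, E₀, hcard, hE⟩ := grid hA hG ∅ (fun p => α * a p) (by simp)
  have hG0 : (0:ℝ) < G := by exact_mod_cast hG
  have hcard' : (E₀.card : ℝ) ≤ 2 * k := by exact_mod_cast hcard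
  have hdl : δ / 2 ≤ P4a7640Y.dl (GS G (3 * k) i) := by
    have h3 := dl_grid hA.meas (kint_GS G (3 * k) i).meas hG hE
    have h4 : (E₀.card : ℝ) / G ≤ 2 * k / G := div_le_div_of_nonneg_right hcard' hG0.le
    linarith
  set y' : SS := fun p => if m ≤ be p then
    g p * P4a7640K.xr (AN a (GS G (3 * k) i)) (fun p => |a p|) α p else y p with hy'
  have h3 := h1 i hdl y' (fun p _ hm => by simp only [hy', if_pos hm])
  have h4 := hch w hw y y' (fun p _ hm => by simp only [hy', if_neg (not_le.2 hm)])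
  have hyp : ∀ p : ℕ, p.Prime → m ≤ be p → y₀ < (p:ℝ) := by
    intro p hp hm
    have h5 : ((2 ^ 2 ^ m : ℕ) : ℝ) ≤ p := by exact_mod_cast le_of_be hp hm
    push_cast at h5
    exact hy₀.trans_le h5
  have hcell : ∀ p : ℕ, p.Prime → m ≤ be p → y p ≠ y' p → cell G (α * a p) ∈ E₀ := by
    intro p hp hm hne
    by_contra hc
    apply hne
    simp only [hy', if_pos hm]
    rw [hy p hp hm, xr_AN]
    have h6 := hE (α * a p) hc
    have h7 : P4a7640K.xr (fun _ => A) a α p = P4a7640K.xr (fun _ => GS G (3 * k) i) a α p := by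
      unfold P4a7640K.xr
      by_cases h8 : Int.fract (α * a p) ∈ A
      · rw [if_pos h8, if_pos (h6.1 h8)]
      · rw [if_neg h8, if_neg fun h9 => h8 (h6.2 h9)]
    rw [h7]
  have hsum : ∑ p ∈ (Icc 1 N).filter (fun p => p.Prime ∧ m ≤ be p ∧ y p ≠ y' p), (1:ℝ) / p ≤
      ∑ c ∈ E₀, 4 * TC {0} (N ^ 2) y₀ G c (fun p => α * a p) := by
    calc ∑ p ∈ (Icc 1 N).filter (fun p => p.Prime ∧ m ≤ be p ∧ y p ≠ y' p), (1:ℝ) / p
        ≤ ∑ p ∈ (Icc 1 N).filter (fun p => p.Prime ∧ m ≤ be p ∧ y p ≠ y' p),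
            ∑ c ∈ E₀, (1:ℝ) / p * cI G c (α * a p) := by
          refine Finset.sum_le_sum fun p hp => ?_
          rw [mem_filter] at hp
          have h5 := hcell p hp.2.1 hp.2.2.1 hp.2.2.2
          have h6 := Finset.single_le_sum (f := fun c => (1:ℝ) / p * cI G c (α * a p))
            (fun c _ => mul_nonneg (by positivity) (TcAux.cI_nonneg G c _)) h5
          refine le_trans (le_of_eq ?_) h6
          show (1:ℝ) / p = 1 / p * cI G (cell G (α * a p)) (α * a p)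
          unfold cI
          rw [if_pos rfl, mul_one]
      _ ≤ ∑ p ∈ (Icc 1 N).filter (fun p => p.Prime ∧ m ≤ be p),
            ∑ c ∈ E₀, (1:ℝ) / p * cI G c (α * a p) := by
          refine Finset.sum_le_sum_of_subset_of_nonneg (fun p hp => ?_) fun p _ _ =>
            Finset.sum_nonneg fun c _ => mul_nonneg (by positivity) (TcAux.cI_nonneg G c _)
          rw [mem_filter] at hp ⊢
          exact ⟨hp.1, hp.2.1, hp.2.2.1⟩
      _ = ∑ c ∈ E₀, ∑ p ∈ (Icc 1 N).filter (fun p => p.Prime ∧ m ≤ be p),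
            (1:ℝ) / p * cI G c (α * a p) := Finset.sum_comm
      _ ≤ _ := Finset.sum_le_sum fun c _ => mass_le_TC hyp G c (fun p => α * a p)
  set q : ℝ := η / (128 * (H.card + 1) * (k + 1)) with hq
  have hq0 : 0 < q := by positivity
  have h5 : ∑ c ∈ E₀, 4 * TC {0} (N ^ 2) y₀ G c (fun p => α * a p) ≤ 2 * k * (4 * q) := by
    calc ∑ c ∈ E₀, 4 * TC {0} (N ^ 2) y₀ G c (fun p => α * a p) ≤ ∑ _c ∈ E₀, 4 * q := by
          refine Finset.sum_le_sum fun c _ => mul_le_mul_of_nonneg_left ?_ (by norm_num)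
          by_cases hc : c < G
          · exact h2 c hc
          · rw [TC_zero hG (not_lt.mp hc)]
            exact hq0.le
      _ = E₀.card * (4 * q) := by rw [Finset.sum_const, nsmul_eq_mul]
      _ ≤ _ := mul_le_mul_of_nonneg_right hcard' (by positivity)
  have hHc : (0:ℝ) ≤ H.card := Nat.cast_nonneg _
  have hk0 : (0:ℝ) ≤ k := Nat.cast_nonneg _
  have h6 : 4 * (H.card:ℝ) * (2 * k * (4 * q)) ≤ η / 4 := by
    have e1 : 4 * (H.card:ℝ) * (2 * k * (4 * q)) = η / 4 * ((H.card / (H.card + 1)) * (k / (k + 1))) := by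
      rw [hq]
      field_simp
      ring
    rw [e1]
    have e2 : (H.card:ℝ) / (H.card + 1) ≤ 1 := by
      rw [div_le_one (by positivity)]
      linarith
    have e3 : (k:ℝ) / (k + 1) ≤ 1 := by
      rw [div_le_one (by positivity)]
      linarith
    have e4 : (H.card:ℝ) / (H.card + 1) * (k / (k + 1)) ≤ 1 * 1 :=
      mul_le_mul e2 e3 (by positivity) zero_le_one
    nlinarith
  have h7 : 4 * (H.card:ℝ) * (((H.sup id : ℕ) : ℝ) / N) ≤ η / 4 := by
    calc 4 * (H.card:ℝ) * (((H.sup id : ℕ) : ℝ) / N) ≤ 4 * (H.card:ℝ) * (η / (16 * (H.card + 1))) :=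
          mul_le_mul_of_nonneg_left hsm (by positivity)
      _ = η / 4 * (H.card / (H.card + 1)) := by
          field_simp
          ring
      _ ≤ η / 4 * 1 := by
          refine mul_le_mul_of_nonneg_left ?_ (by positivity)
          rw [div_le_one (by positivity)]
          linarith
      _ = η / 4 := mul_one _
  have h8 : 4 * (H.card:ℝ) * (∑ p ∈ (Icc 1 N).filter (fun p => p.Prime ∧ m ≤ be p ∧ y p ≠ y' p),
      (1:ℝ) / p + ((H.sup id : ℕ) : ℝ) / N) ≤ η / 2 := by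
    rw [mul_add]
    have h9 := mul_le_mul_of_nonneg_left (hsum.trans h5) (show 0 ≤ 4 * (H.card:ℝ) by positivity)
    linarith
  have h10 := h4.trans h8
  calc |FC w H N y| = |FC w H N y' + (FC w H N y - FC w H N y')| := by
        congr 1
        ring
    _ ≤ |FC w H N y'| + |FC w H N y - FC w H N y'| := abs_add_le _ _
    _ ≤ η := by linarith

end AllCAux

open AllCAux Pool.Agent.Lib.P4a7640M Pool.Agent.Lib.P4a7640V Pool.Agent.Lib.P4a7640X.AllAAux in
theorem all_bound (k : ℕ) {a : ℕ → ℝ} (hsep : ∀ p q : ℕ, p.Prime → q.Prime → p ≠ q → 1 ≤ |a p - a q|)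
    {δ : ℝ} (hδ : 0 < δ) {H : Finset ℕ} (hH : H.Nonempty) {η : ℝ} (hη : 0 < η) :
    ∃ j : ℕ, ∃ c' : ℝ, 0 < c' ∧ ∀ᶠ N : ℕ in atTop, ∀ (g : ℕ → ℤˣ) (w : ℕ → ℝ) (u : ℝ),
      (∀ n, |w n| ≤ 1) →
      ∃ E : Set ℝ, MeasurableSet E ∧ E ⊆ Set.Ico u (u + 1) ∧
        (volume E).toReal ≤ Real.exp (-(c' * Real.log N)) ∧
        ∀ α ∈ Set.Ico u (u + 1), α ∉ E → ∀ A : Set ℝ, P4a7640Y.KInt k A → δ ≤ P4a7640Y.dl A →
          ∀ y : SS, (∀ p : ℕ, p.Prime → be N - j ≤ be p →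
            y p = g p * P4a7640K.xr (fun _ => A) a α p) → |FC w H N y| ≤ η := by
  classical
  obtain ⟨j, hj⟩ := real_bound (3 * k + 1) (K := 4) (κ := 1) (by norm_num) one_pos le_rfl
    (a := fun p => |a p|) (fun p => abs_nonneg _) (cnt_sep_abs hsep) (half_pos hδ) hH (half_pos hη)
  obtain ⟨c₂, hc₂, hev⟩ := hj j le_rfl
  obtain ⟨C, hC, hT⟩ := tc_neg (K := 4) (κ := 1) (by norm_num) one_pos le_rfl (cnt_sep_abs hsep) {0}
  set c₁ : ℝ := min (c₂ / (12 * k + 12)) (1 / (12 * 2 ^ (j + 1))) with hc₁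
  have hc₁0 : 0 < c₁ := lt_min (by positivity) (by positivity)
  have hc₁a : 6 * k * c₁ ≤ c₂ / 2 := by
    have h1 : c₁ ≤ c₂ / (12 * k + 12) := min_le_left _ _
    have h2 : (0:ℝ) < 12 * k + 12 := by positivity
    rw [le_div_iff₀ h2] at h1
    nlinarith
  have hc₁b : 12 * c₁ ≤ 1 / 2 ^ (j + 1) := by
    have h1 : c₁ ≤ 1 / (12 * 2 ^ (j + 1)) := min_le_right _ _
    have h2 : (1:ℝ) / (12 * 2 ^ (j + 1)) = 1 / 2 ^ (j + 1) / 12 := by
      field_simp
    rw [h2] at h1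
    linarith
  set e₁ : ℝ := η / (128 * (H.card + 1) * (k + 1)) with he₁
  have he₁0 : 0 < e₁ := by positivity
  set K₁ : ℝ := 22 * C / e₁ ^ 2 with hK₁
  refine ⟨j, min (c₁ / 2) (c₂ / 4), lt_min (by positivity) (by positivity), ?_⟩
  have htop : Tendsto (fun N : ℕ => N ^ 2) atTop atTop := tendsto_pow_atTop (by norm_num)
  have hsm : ∀ᶠ N : ℕ in atTop, ((H.sup id : ℕ) : ℝ) / N ≤ η / (16 * (H.card + 1)) :=
    ((tendsto_natCast_atTop_atTop.const_div_atTop (((H.sup id : ℕ) : ℝ))).eventually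
      (eventually_le_nhds (show (0:ℝ) < η / (16 * (H.card + 1)) by positivity)))
  filter_upwards [hev, htop.eventually hT, eventually_ge_atTop 3,
    htop.eventually (ev_lam K₁ (show 0 < c₁ / 4 by positivity)), FC_change H j, hsm,
    ev_const (2 * 3 ^ (6 * k)) (show 0 < c₂ / 4 by positivity),
    ev_const (4 * k / δ + 4 * (H.sup id + 1 : ℕ)) hc₁0] with N hN hTN hN3 hN4 hch hsmN hN5 hN6
  intro g w u hw
  have hlog0 : 0 ≤ Real.log N := Real.log_natCast_nonneg N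
  set X : ℝ := Real.exp (c₁ * Real.log N) with hX
  have hX1 : 1 ≤ X := Real.one_le_exp (by positivity)
  have hX0 : 0 < X := by linarith
  set G : ℕ := ⌈X⌉₊ with hG
  set L : ℕ := ⌈X ^ 2⌉₊ with hL
  have hG1 : X ≤ G := Nat.le_ceil X
  have hG0 : (0:ℝ) < G := hX0.trans_le hG1
  have hGn : 0 < G := by exact_mod_cast hG0
  have hLn : 0 < L := Nat.ceil_pos.2 (by positivity)
  have hG2 : (G:ℝ) + 1 ≤ 3 * X := by
    have := (Nat.ceil_lt_add_one hX0.le).le
    rw [← hG] at this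
    linarith
  set y₀ : ℝ := (2:ℝ) ^ (2 ^ (be N - j) : ℕ) / 2 with hy₀
  have hsc : X ^ 12 ≤ (2:ℝ) ^ (2 ^ (be N - j) : ℕ) := by
    refine le_trans ?_ (scale_ge j (by omega : 1 ≤ N))
    rw [hX, ← Real.exp_nat_mul]
    refine Real.exp_le_exp.2 ?_
    push_cast
    calc 12 * (c₁ * Real.log N) = 12 * c₁ * Real.log N := by ring
      _ ≤ 1 / 2 ^ (j + 1) * Real.log N := mul_le_mul_of_nonneg_right hc₁b hlog0
      _ = _ := by ring
  have hy1 : X ^ 12 / 2 ≤ y₀ := by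
    rw [hy₀]
    linarith
  have hyX : X / 2 ≤ y₀ := by
    refine le_trans ?_ hy1
    have : X ≤ X ^ 12 := le_self_pow₀ hX1 (by norm_num)
    linarith
  have hkδ : 0 ≤ 4 * (k:ℝ) / δ := by positivity
  have hH0 : (0:ℝ) ≤ (H.sup id : ℕ) := Nat.cast_nonneg _
  have hN6' : 4 * (k:ℝ) / δ + 4 * (((H.sup id : ℕ) : ℝ) + 1) ≤ X := by
    push_cast at hN6
    exact hN6
  have hy2 : 1 ≤ y₀ := by linarith
  have hy3 : ∀ h ∈ ({0} : Finset ℕ), 2 * (h:ℝ) ≤ y₀ := by
    intro h hh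
    rw [Finset.mem_singleton.1 hh]
    push_cast
    linarith
  have hGδ : (2 * k : ℝ) / G ≤ δ / 2 := by
    have h1 : 4 * (k:ℝ) / δ ≤ G := by linarith
    rw [div_le_iff₀ hδ] at h1
    rw [div_le_div_iff₀ hG0 two_pos]
    linarith
  have hy4 : y₀ < (2:ℝ) ^ (2 ^ (be N - j) : ℕ) := by
    rw [hy₀]
    have : (0:ℝ) < 2 ^ (2 ^ (be N - j) : ℕ) := by positivity
    linarith
  -- the exceptional set of the cells
  set S : ℝ → ℝ := fun α => ∑ i ∈ Finset.range G, TC {0} (N ^ 2) y₀ G i (fun p => α * a p) ^ 2 with hS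
  have hSm : Measurable S := Finset.measurable_sum _ fun i _ =>
    (measurable_TC {0} (N ^ 2) y₀ G i a).pow_const 2
  have hS0 : ∀ α, 0 ≤ S α := fun α => Finset.sum_nonneg fun i _ => sq_nonneg _
  obtain ⟨CT, hCT⟩ := TC_le {0} (N ^ 2)
  have hSb : ∀ α, S α ≤ ∑ _i ∈ Finset.range G, CT ^ 2 := fun α => Finset.sum_le_sum fun i _ =>
    pow_le_pow_left₀ (TC_nonneg _ _ _ _ _ _) (hCT _ _ _ _) 2
  have hI : ∫ α in u..(u + 1), S α ≤ C * lam (N ^ 2) ^ 2 * (11 / X) := by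
    refine (hTN y₀ hy2 hy3 G L hGn hLn u).trans ?_
    exact mul_le_mul_of_nonneg_left (three_terms hX1 hG hL hy1) (by positivity)
  have hmk := markov hSm hS0 hSb (u := u) (show 0 < e₁ ^ 2 by positivity) hI
  set ET : Set ℝ := {α | e₁ ^ 2 ≤ S α} ∩ Set.Ico u (u + 1) with hET
  have hETm : MeasurableSet ET := (measurableSet_le measurable_const hSm).inter measurableSet_Ico
  have hETv : (volume ET).toReal ≤ Real.exp (-(min (c₁ / 2) (c₂ / 4) * Real.log N)) / 2 := by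
    refine hmk.trans ?_
    have h1 : C * lam (N ^ 2) ^ 2 * (11 / X) / e₁ ^ 2 = K₁ * lam (N ^ 2) ^ 2 / X / 2 := by
      rw [hK₁]
      field_simp
      ring
    rw [h1]
    refine div_le_div_of_nonneg_right ?_ two_pos.le
    have hN4' : K₁ * lam (N ^ 2) ^ 2 ≤ Real.exp (c₁ / 2 * Real.log N) := by
      refine hN4.trans (le_of_eq ?_)
      congr 1
      push_cast
      rw [Real.log_pow]
      push_cast
      ring
    calc K₁ * lam (N ^ 2) ^ 2 / X ≤ Real.exp (c₁ / 2 * Real.log N) / X :=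
          div_le_div_of_nonneg_right hN4' hX0.le
      _ = Real.exp (-(c₁ / 2 * Real.log N)) := by
          rw [hX, ← Real.exp_sub]
          congr 1
          ring
      _ ≤ _ := by
          refine Real.exp_le_exp.2 (neg_le_neg ?_)
          exact mul_le_mul_of_nonneg_right (min_le_left _ _) hlog0
  -- the exceptional sets of the grid sets
  have hGi : ∀ i : Fin (3 * k) → Fin (G + 1) × Fin (G + 1), ∃ E : Set ℝ, MeasurableSet E ∧
      E ⊆ Set.Ico u (u + 1) ∧ (volume E).toReal ≤ Real.exp (-(c₂ * Real.log N)) ∧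
      (δ / 2 ≤ P4a7640Y.dl (GS G (3 * k) i) → ∀ α ∈ Set.Ico u (u + 1), α ∉ E → ∀ y : SS,
        (∀ p : ℕ, p.Prime → be N - j ≤ be p →
          y p = g p * P4a7640K.xr (AN a (GS G (3 * k) i)) (fun p => |a p|) α p) →
        |FC w H N y| ≤ η / 2) := by
    intro i
    by_cases h : δ / 2 ≤ P4a7640Y.dl (GS G (3 * k) i)
    · obtain ⟨E, h1, h2, h3, h4⟩ := hN (AN a (GS G (3 * k) i)) g w u
        (fun p => kint_AN a (kint_GS G (3 * k) i) p)
        (fun p => by rw [dl_AN a (kint_GS G (3 * k) i)]; exact h) hw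
      exact ⟨E, h1, h2, h3, fun _ => h4⟩
    · refine ⟨∅, MeasurableSet.empty, Set.empty_subset _, ?_, fun h' => absurd h' h⟩
      rw [measure_empty]
      exact (Real.exp_pos _).le
  choose E hEm hEs hEv hE using hGi
  have hUv : (volume (⋃ i, E i)).toReal ≤
      Real.exp (-(min (c₁ / 2) (c₂ / 4) * Real.log N)) / 2 := by
    refine (union_bound hEv).trans ?_
    rw [card_grid]
    push_cast
    have h1 : ((G:ℝ) + 1) ^ (6 * k) ≤ (3 * X) ^ (6 * k) := pow_le_pow_left₀ (by positivity) hG2 _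
    have h2 : (3 * X) ^ (6 * k) * Real.exp (-(c₂ * Real.log N)) ≤
        3 ^ (6 * k) * Real.exp (-(c₂ / 2 * Real.log N)) := by
      rw [mul_pow, mul_assoc]
      refine mul_le_mul_of_nonneg_left ?_ (by positivity)
      rw [hX, ← Real.exp_nat_mul, ← Real.exp_add]
      refine Real.exp_le_exp.2 ?_
      push_cast
      have h3 : 6 * k * c₁ * Real.log N ≤ c₂ / 2 * Real.log N := mul_le_mul_of_nonneg_right hc₁a hlog0
      linarith
    have h3 : (3:ℝ) ^ (6 * k) * Real.exp (-(c₂ / 2 * Real.log N)) ≤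
        Real.exp (-(c₂ / 4 * Real.log N)) / 2 := by
      have h4 : (3:ℝ) ^ (6 * k) ≤ Real.exp (c₂ / 4 * Real.log N) / 2 := by linarith
      calc (3:ℝ) ^ (6 * k) * Real.exp (-(c₂ / 2 * Real.log N)) ≤
            Real.exp (c₂ / 4 * Real.log N) / 2 * Real.exp (-(c₂ / 2 * Real.log N)) :=
            mul_le_mul_of_nonneg_right h4 (Real.exp_pos _).le
        _ = Real.exp (c₂ / 4 * Real.log N) * Real.exp (-(c₂ / 2 * Real.log N)) / 2 := by ring
        _ = _ := by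
            rw [← Real.exp_add]
            congr 2
            ring
    have h4 : Real.exp (-(c₂ / 4 * Real.log N)) ≤
        Real.exp (-(min (c₁ / 2) (c₂ / 4) * Real.log N)) := by
      refine Real.exp_le_exp.2 (neg_le_neg ?_)
      exact mul_le_mul_of_nonneg_right (min_le_right _ _) hlog0
    have h5 : ((G:ℝ) + 1) ^ (6 * k) * Real.exp (-(c₂ * Real.log N)) ≤
        (3 * X) ^ (6 * k) * Real.exp (-(c₂ * Real.log N)) :=
      mul_le_mul_of_nonneg_right h1 (Real.exp_pos _).le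
    linarith
  refine ⟨ET ∪ ⋃ i, E i, hETm.union (MeasurableSet.iUnion hEm), ?_, ?_, ?_⟩
  · refine Set.union_subset Set.inter_subset_right (Set.iUnion_subset hEs)
  · have h1 := measureReal_union_le (μ := volume) ET (⋃ i, E i)
    simp only [measureReal_def] at h1
    linarith
  · intro α hα hαE A hA hδA y hy
    rw [Set.mem_union, not_or, Set.mem_iUnion, not_exists] at hαE
    have hSα : S α < e₁ ^ 2 := by
      by_contra h
      exact hαE.1 ⟨not_lt.1 h, hα⟩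
    refine AllCAux.bound_of (m := be N - j) hw hη hGn hGδ hy4 hch hsmN
      (fun i hi => hE i hi α hα (hαE.2 i)) ?_ hA hδA hy
    intro c hc
    have h1 : TC {0} (N ^ 2) y₀ G c (fun p => α * a p) ^ 2 ≤ S α :=
      Finset.single_le_sum (f := fun i => TC {0} (N ^ 2) y₀ G i (fun p => α * a p) ^ 2)
        (fun i _ => sq_nonneg _) (Finset.mem_range.2 hc)
    exact (lt_of_pow_lt_pow_left₀ 2 he₁0.le (h1.trans_lt hSα)).le

end Pool.Agent.Lib.P4a7640Ces
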