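import Mathlib
import Pool.Agent.Lib.P4a7640Ces.AllA
import Pool.Agent.Lib.P4a7640Ces.AeA
import Pool.Agent.Lib.P4a7640Ces.Sqf
import Pool.Agent.Lib.P4a7640X.AeX
import Pool.Agent.Lib.P4a7640X.FinX

/-!
# Almost every point, natural averages
-/

open Filter MeasureTheory Finset Topology

namespace Pool.Agent.Lib.P4a7640Ces

open Pool.Agent.Lib.P4a7640 Pool.Agent.Lib.P4a7640D Pool.Agent.Lib.P4a7640X

/-- the signs of the slow class, at the scales `l ^ A` -/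
private theorem slow_small {w : ℕ → ℝ} (hw : ∀ n, |w n| ≤ 1) (H : Finset ℕ) {x y : SS}
    (hyx : SlowC y x) {j A : ℕ} (hA : 1 ≤ A) {η : ℝ} (hη : 0 < η)
    (h : ∀ᶠ l : ℕ in atTop, ∀ y' : SS, (∀ p : ℕ, p.Prime → be (l ^ A) - j ≤ be p → y' p = x p) →
      |FC w H (l ^ A) y'| ≤ η) :
    ∀ᶠ l : ℕ in atTop, |FC w H (l ^ A) y| ≤ 2 * η := by
  have htop : Tendsto (fun l : ℕ => l ^ A) atTop atTop := tendsto_pow_atTop (by omega)
  have hε : 0 < η / (8 * ((H.card:ℝ) + 1)) := by positivity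
  have h1 := htop.eventually (FC_change H j)
  have h2 := htop.eventually ((slow_change hyx j).eventually (eventually_le_nhds hε))
  have h3 : Tendsto (fun N : ℕ => ((H.sup id : ℕ):ℝ) / N) atTop (𝓝 0) :=
    tendsto_natCast_atTop_atTop.const_div_atTop _
  have h4 := htop.eventually (h3.eventually (eventually_le_nhds hε))
  filter_upwards [h, h1, h2, h4] with l a1 a2 a3 a4
  obtain ⟨y', hlt, hge⟩ : ∃ y' : SS, (∀ p, be p < be (l ^ A) - j → y' p = y p) ∧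
      ∀ p, be (l ^ A) - j ≤ be p → y' p = x p :=
    ⟨fun p => if be p < be (l ^ A) - j then y p else x p, fun p hp => if_pos hp,
      fun p hp => if_neg (not_lt.2 hp)⟩
  have b1 : |FC w H (l ^ A) y'| ≤ η := a1 y' fun p _ hp => hge p hp
  have b2 := a2 w hw y y' fun p _ hp => (hlt p hp).symm
  have b3 : (Icc 1 (l ^ A)).filter (fun p => p.Prime ∧ be (l ^ A) - j ≤ be p ∧ y p ≠ y' p) =
      (Icc 1 (l ^ A)).filter (fun p => p.Prime ∧ be (l ^ A) - j ≤ be p ∧ y p ≠ x p) := by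
    refine Finset.filter_congr fun p _ => ?_
    constructor
    · rintro ⟨c1, c2, c3⟩
      refine ⟨c1, c2, ?_⟩
      rwa [hge p c2] at c3
    · rintro ⟨c1, c2, c3⟩
      refine ⟨c1, c2, ?_⟩
      rwa [hge p c2]
  rw [b3] at b2
  have b4 : 4 * (H.card:ℝ) * (η / (8 * ((H.card:ℝ) + 1)) + η / (8 * ((H.card:ℝ) + 1))) ≤ η := by
    have hc : (0:ℝ) ≤ H.card := Nat.cast_nonneg _
    have e1 : 4 * (H.card:ℝ) * (η / (8 * ((H.card:ℝ) + 1)) + η / (8 * ((H.card:ℝ) + 1))) =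
        η * ((H.card:ℝ) / ((H.card:ℝ) + 1)) := by
      field_simp
      ring
    rw [e1]
    have e2 : (H.card:ℝ) / ((H.card:ℝ) + 1) ≤ 1 := by
      rw [div_le_one (by positivity)]
      linarith
    nlinarith
  have b5 : |FC w H (l ^ A) y - FC w H (l ^ A) y'| ≤ η := by
    refine b2.trans (le_trans ?_ b4)
    refine mul_le_mul_of_nonneg_left ?_ (by positivity)
    exact add_le_add a3 a4
  have b6 := abs_sub_abs_le_abs_sub (FC w H (l ^ A) y) (FC w H (l ^ A) y')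
  linarith

lemma FC_eq (w : ℕ → ℝ) (H : Finset ℕ) (N : ℕ) (y : SS) :
    FC w H N y = (∑ n ∈ Icc 1 N, w n * prodSeq (rnd y) H n) / (N:ℝ) := rfl

/-- The argument for an abstract family of signs. -/
theorem van_core {X : Type} (x : X → ℝ → SS) {w : ℕ → ℝ} (hw : ∀ n, |w n| ≤ 1)
    (hb : ∀ H : Finset ℕ, H.Nonempty → ∀ η : ℝ, 0 < η → ∃ j : ℕ, ∃ c : ℝ, 0 < c ∧
      ∀ᶠ N : ℕ in atTop, ∀ (w : ℕ → ℝ) (u : ℝ), (∀ n, |w n| ≤ 1) →
        ∃ E : Set ℝ, MeasurableSet E ∧ E ⊆ Set.Ico u (u + 1) ∧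
          (volume E).toReal ≤ Real.exp (-(c * Real.log N)) ∧
          ∀ α ∈ Set.Ico u (u + 1), α ∉ E → ∀ (i : X) (y : SS),
            (∀ p : ℕ, p.Prime → be N - j ≤ be p → y p = x i α p) → |FC w H N y| ≤ η) :
    ∀ᵐ α : ℝ, ∀ (i : X) (y : SS), SlowC y (x i α) → VanC w (rnd y) := by
  have hw' : ∀ R b : ℕ, ∀ n, |w n * (if n % R = b then 1 else 0)| ≤ 1 := by
    intro R b n
    rw [abs_mul]
    split_ifs
    · rw [abs_one, mul_one]; exact hw _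
    · rw [abs_zero, mul_zero]; exact zero_le_one
  have h1 : ∀ᵐ α : ℝ, ∀ (H : Finset ℕ) (R b m : ℕ), H.Nonempty → ∃ j A : ℕ, 1 ≤ A ∧
      ∀ᶠ l : ℕ in atTop, ∀ (i : X) (y : SS),
        (∀ p : ℕ, p.Prime → be (l ^ A) - j ≤ be p → y p = x i α p) →
        |FC (fun n => w n * (if n % R = b then 1 else 0)) H (l ^ A) y| ≤ 1 / ((m:ℝ) + 1) := by
    rw [ae_all_iff]
    intro H
    rw [ae_all_iff]
    intro R
    rw [ae_all_iff]
    intro b
    rw [ae_all_iff]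
    intro m
    by_cases hne : H.Nonempty
    · obtain ⟨j, c, hc, hN⟩ := hb H hne (1 / ((m:ℝ) + 1)) (by positivity)
      obtain ⟨A, hA, h2⟩ := ae_scales (P := fun N α => ∀ (i : X) (y : SS),
          (∀ p : ℕ, p.Prime → be N - j ≤ be p → y p = x i α p) →
          |FC (fun n => w n * (if n % R = b then 1 else 0)) H N y| ≤ 1 / ((m:ℝ) + 1)) hc (by
            filter_upwards [hN] with N hN' u
            exact hN' _ u (hw' R b))
      filter_upwards [h2] with α hα _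
      exact ⟨j, A, hA, hα⟩
    · exact Eventually.of_forall fun α h => absurd h hne
  filter_upwards [h1] with α hα i y hy H hne R b
  rw [Metric.tendsto_atTop]
  intro ε hε
  obtain ⟨m, hm⟩ := exists_nat_one_div_lt (show 0 < ε / 4 by positivity)
  obtain ⟨j, A, hA, hj⟩ := hα H R b m hne
  have hm0 : (0:ℝ) < 1 / ((m:ℝ) + 1) := by positivity
  have h2 := slow_small (hw' R b) H hy (j := j) hA hm0
    (hj.mono fun l hl y' hy' => hl i y' hy')
  have h3 := interp_pow (u := fun n => w n * (if n % R = b then 1 else 0) * prodSeq (rnd y) H n)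
    (fun n => by
      rw [abs_mul, abs_prodSeq, mul_one]
      exact hw' R b n) hA (show (0:ℝ) < 2 * (1 / ((m:ℝ) + 1)) by positivity)
    (by
      filter_upwards [h2] with l hl
      rw [FC_eq] at hl
      exact hl)
  obtain ⟨k0, hk0⟩ := eventually_atTop.mp h3
  refine ⟨k0, fun k hk => ?_⟩
  rw [dist_zero_right, Real.norm_eq_abs]
  have h4 := hk0 k hk
  linarith

theorem van_sets {a : ℕ → ℝ}
    (hsep : ∀ p q : ℕ, p.Prime → q.Prime → p ≠ q → 1 ≤ |a p - a q|) (g : ℕ → ℤˣ) {w : ℕ → ℝ}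
    (hw : ∀ n, |w n| ≤ 1) :
    ∀ᵐ α : ℝ, ∀ (k : ℕ) (A : Set ℝ), P4a7640Y.KInt k A → 0 < P4a7640Y.dl A → ∀ y : SS,
      SlowC y (fun p => g p * P4a7640K.xr (fun _ => A) a α p) → VanC w (rnd y) := by
  have h1 : ∀ᵐ α : ℝ, ∀ (k m : ℕ), ∀ (i : {A : Set ℝ // P4a7640Y.KInt k A ∧
      1 / ((m:ℝ) + 1) ≤ P4a7640Y.dl A}) (y : SS),
      SlowC y (fun p => g p * P4a7640K.xr (fun _ => (i : Set ℝ)) a α p) → VanC w (rnd y) := by
    rw [ae_all_iff]
    intro k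
    rw [ae_all_iff]
    intro m
    refine van_core (X := {A : Set ℝ // P4a7640Y.KInt k A ∧ 1 / ((m:ℝ) + 1) ≤ P4a7640Y.dl A})
      (fun i α p => g p * P4a7640K.xr (fun _ => (i : Set ℝ)) a α p) hw ?_
    intro H hH η hη
    obtain ⟨j, c, hc, hN⟩ := all_bound k hsep (δ := 1 / ((m:ℝ) + 1)) (by positivity) hH hη
    refine ⟨j, c, hc, ?_⟩
    filter_upwards [hN] with N hN' w' u hw'
    obtain ⟨E, e1, e2, e3, e4⟩ := hN' g w' u hw'
    exact ⟨E, e1, e2, e3, fun α hα hαE i y hy => e4 α hα hαE i i.2.1 i.2.2 y hy⟩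
  filter_upwards [h1] with α hα k A hA hd y hy
  obtain ⟨m, hm⟩ := exists_nat_one_div_lt hd
  exact hα k m ⟨A, hA, hm.le⟩ y hy

theorem van_seq (k : ℕ) {K κ : ℝ} (hK : 0 < K) (hκ : 0 < κ) (hκ1 : κ ≤ 1) {a : ℕ → ℝ}
    (ha0 : ∀ p, 0 ≤ a p) (ha : P4a7640K.Cnt K κ a) {δ : ℝ} (hδ : 0 < δ) {A : ℕ → Set ℝ}
    (hA : ∀ p, P4a7640Y.KInt k (A p)) (hAδ : ∀ p, δ ≤ P4a7640Y.dl (A p)) (g : ℕ → ℤˣ) {w : ℕ → ℝ}
    (hw : ∀ n, |w n| ≤ 1) :
    ∀ᵐ α : ℝ, ∀ y : SS, SlowC y (fun p => g p * P4a7640K.xr A a α p) → VanC w (rnd y) := by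
  have h1 : ∀ᵐ α : ℝ, ∀ (_ : Unit) (y : SS), SlowC y (fun p => g p * P4a7640K.xr A a α p) →
      VanC w (rnd y) := by
    refine van_core (X := Unit) (fun _ α p => g p * P4a7640K.xr A a α p) hw ?_
    intro H hH η hη
    obtain ⟨j₀, hj₀⟩ := real_bound k hK hκ hκ1 ha0 ha hδ hH hη
    obtain ⟨c, hc, hN⟩ := hj₀ j₀ le_rfl
    refine ⟨j₀, c, hc, ?_⟩
    filter_upwards [hN] with N hN' w' u hw'
    obtain ⟨E, e1, e2, e3, e4⟩ := hN' A g w' u hA hAδ hw'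
    exact ⟨E, e1, e2, e3, fun α hα hαE _ y hy => e4 α hα hαE y hy⟩
  filter_upwards [h1] with α hα y hy
  exact hα () y hy

/-- the natural averages, all sets at once -/
theorem cesaro_sets {a : ℕ → ℝ}
    (hsep : ∀ p q : ℕ, p.Prime → q.Prime → p ≠ q → 1 ≤ |a p - a q|) (g : ℕ → ℤˣ) {w : ℕ → ℝ} {C : ℝ}
    (hw : ∀ n, |w n| ≤ C) :
    ∀ᵐ α : ℝ, ∀ (k : ℕ) (A : Set ℝ), P4a7640Y.KInt k A → 0 < P4a7640Y.dl A →
      ∀ f : ℕ → ℤˣ, MultS f → SlowC f (fun p => g p * P4a7640K.xr (fun _ => A) a α p) →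
      ∀ H : Finset ℕ, H.Nonempty →
        Tendsto (fun N : ℕ => (∑ n ∈ Icc 1 N, w n * prodSeq f H n) / (N:ℝ)) atTop (𝓝 0) := by
  have hC'0 : 0 < |C| + 1 := by positivity
  filter_upwards [van_sets hsep g (abs_div_le_one hw)] with α h k A hA hd f hf hfs H hne
  have h1 := (van_mult hf (abs_div_le_one hw) (h k A hA hd f hfs) hne).const_mul (|C| + 1)
  rw [mul_zero] at h1
  refine h1.congr fun N => ?_
  rw [← mul_div_assoc, Finset.mul_sum]
  congr 1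
  refine Finset.sum_congr rfl fun n _ => ?_
  field_simp

/-- the natural averages, a sequence of sets -/
theorem cesaro_seq (k : ℕ) {K κ : ℝ} (hK : 0 < K) (hκ : 0 < κ) (hκ1 : κ ≤ 1) {a : ℕ → ℝ}
    (ha0 : ∀ p, 0 ≤ a p) (ha : P4a7640K.Cnt K κ a) {δ : ℝ} (hδ : 0 < δ) {A : ℕ → Set ℝ}
    (hA : ∀ p, P4a7640Y.KInt k (A p)) (hAδ : ∀ p, δ ≤ P4a7640Y.dl (A p)) (g : ℕ → ℤˣ)
    {w : ℕ → ℝ} {C : ℝ} (hw : ∀ n, |w n| ≤ C) :
    ∀ᵐ α : ℝ, ∀ f : ℕ → ℤˣ, MultS f → SlowC f (fun p => g p * P4a7640K.xr A a α p) →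
      ∀ H : Finset ℕ, H.Nonempty →
        Tendsto (fun N : ℕ => (∑ n ∈ Icc 1 N, w n * prodSeq f H n) / (N:ℝ)) atTop (𝓝 0) := by
  have hC'0 : 0 < |C| + 1 := by positivity
  filter_upwards [van_seq k hK hκ hκ1 ha0 ha hδ hA hAδ g (abs_div_le_one hw)] with α h f hf hfs H hne
  have h1 := (van_mult hf (abs_div_le_one hw) (h f hfs) hne).const_mul (|C| + 1)
  rw [mul_zero] at h1
  refine h1.congr fun N => ?_
  rw [← mul_div_assoc, Finset.mul_sum]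
  congr 1
  refine Finset.sum_congr rfl fun n _ => ?_
  field_simp

end Pool.Agent.Lib.P4a7640Ces
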