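import Mathlib
import Pool.Agent.Lib.P4a7640Ces.AeX

/-!
# The main theorem, natural averages
-/

open Filter MeasureTheory Finset Topology

namespace Pool.Agent.Lib.P4a7640Ces

open Pool.Agent.Lib.P4a7640 Pool.Agent.Lib.P4a7640D Pool.Agent.Lib.P4a7640X

/-- the slow class: all shifted products have natural mean zero -/
theorem ces_main {a : ℕ → ℝ}
    (hsep : ∀ p q : ℕ, p.Prime → q.Prime → p ≠ q → 1 ≤ |a p - a q|) (g : ℕ → ℤˣ) {w : ℕ → ℝ} {C : ℝ}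
    (hw : ∀ n, |w n| ≤ C) :
    ∀ᵐ α : ℝ, ∀ (k : ℕ) (A : Set ℝ), P4a7640Y.KInt k A → 0 < P4a7640Y.dl A →
      ∀ f : ℕ → ℤˣ, MultS f → SlowC f (fun p => g p * P4a7640K.xr (fun _ => A) a α p) →
      ∀ H : Finset ℕ, H.Nonempty →
        Tendsto (fun N : ℕ => (∑ n ∈ Finset.Icc 1 N, w n * prodSeq f H n) / N) atTop (𝓝 0) :=
  cesaro_sets hsep g hw

end Pool.Agent.Lib.P4a7640Ces
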