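import Mathlib
import Pool.Agent.Lib.P4a7640Ces.FinC
import Pool.Agent.Lib.P4a7640Y.WFair

/-!
# The natural averages along the orbit: continuous functions
-/

open MeasureTheory Filter Topology

namespace Pool.Agent.Lib.P4a7640Ces

open Pool.Agent.Lib.P4a7640 Pool.Agent.Lib.P4a7640M Pool.Agent.Lib.P4a7640X

/-- the natural average -/
noncomputable def CA (a : ℕ → ℝ) (N : ℕ) : ℝ := (∑ n ∈ Finset.Icc 1 N, a n) / N

/-- the weighted integral `(1/N) ∑_{n ≤ N} w(n) F(T^n x_f)` -/
noncomputable def muC (w : ℕ → ℝ) (f : ℕ → ℤˣ) (N : ℕ) (F : (ℤ → SignType) → ℝ) : ℝ :=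
  (∑ n ∈ Finset.Icc 1 N, w n * F (fun i => xf f (i + n))) / N

/-- the difference between the weighted integral and the product of the averages -/
noncomputable def dC (w : ℕ → ℝ) (f : ℕ → ℤˣ) (N : ℕ) (F : (ℤ → SignType) → ℝ) : ℝ :=
  muC w f N F - CA w N * EE F

lemma muC_eq_CA (w : ℕ → ℝ) (f : ℕ → ℤˣ) (N : ℕ) (F : (ℤ → SignType) → ℝ) :
    muC w f N F = CA (fun n => w n * F (fun i => xf f (i + n))) N := rfl

lemma CA_add (a b : ℕ → ℝ) (N : ℕ) : CA (fun n => a n + b n) N = CA a N + CA b N := by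
  unfold CA
  rw [Finset.sum_add_distrib, add_div]

lemma CA_const_mul (c : ℝ) (a : ℕ → ℝ) (N : ℕ) : CA (fun n => c * a n) N = c * CA a N := by
  unfold CA
  rw [← Finset.mul_sum, mul_div_assoc]

lemma abs_CA_le {a : ℕ → ℝ} {c : ℝ} (hc : 0 ≤ c) (h : ∀ n, |a n| ≤ c) (N : ℕ) : |CA a N| ≤ c := by
  unfold CA
  rcases Nat.eq_zero_or_pos N with hN | hN
  · rw [hN, Nat.cast_zero, div_zero, abs_zero]
    exact hc
  · have hN0 : (0:ℝ) < N := by exact_mod_cast hN
    rw [abs_div, abs_of_pos hN0, div_le_iff₀ hN0]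
    refine (Finset.abs_sum_le_sum_abs _ _).trans ?_
    calc ∑ n ∈ Finset.Icc 1 N, |a n| ≤ ∑ _n ∈ Finset.Icc 1 N, c := Finset.sum_le_sum fun n _ => h n
      _ = c * N := by
          rw [Finset.sum_const, Nat.card_Icc, nsmul_eq_mul, Nat.add_sub_cancel]
          ring

lemma tendsto_CA_shift {a : ℕ → ℝ} (h : ∀ n, |a n| ≤ 1) (K : ℕ) :
    Tendsto (fun N => CA (fun n => a (n + K)) N - CA a N) atTop (𝓝 0) := by
  have h0 : Tendsto (fun N : ℕ => (2 * K : ℝ) / N) atTop (𝓝 0) :=
    tendsto_natCast_atTop_atTop.const_div_atTop _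
  refine squeeze_zero_norm (fun N => ?_) h0
  rw [Real.norm_eq_abs]
  unfold CA
  rw [← sub_div, abs_div, Nat.abs_cast]
  refine div_le_div_of_nonneg_right ?_ (Nat.cast_nonneg _)
  have hs : ∀ M : ℕ, ∑ n ∈ Finset.Icc 1 M, a n = ∑ n ∈ Finset.range M, a (n + 1) := by
    intro M
    rw [Finset.range_eq_Ico, Finset.sum_Ico_add' (fun n => a n) 0 M 1]
    rfl
  have e1 : ∑ n ∈ Finset.Icc 1 N, a (n + K) = ∑ n ∈ Finset.range N, a (n + K + 1) := by
    rw [Finset.range_eq_Ico]
    have := Finset.sum_Ico_add' (fun n => a (n + K)) 0 N 1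
    have h3 : ∑ n ∈ Finset.Icc 1 N, a (n + K) = ∑ n ∈ Finset.Ico (0 + 1) (N + 1), a (n + K) := rfl
    rw [h3, ← this]
    refine Finset.sum_congr rfl fun n _ => ?_
    congr 1
    ring
  have e2 : ∑ n ∈ Finset.range (K + N), a (n + 1) =
      ∑ n ∈ Finset.range K, a (n + 1) + ∑ n ∈ Finset.range N, a (n + K + 1) := by
    rw [Finset.sum_range_add]
    congr 1
    refine Finset.sum_congr rfl fun n _ => ?_
    congr 1
    ring
  have e3 : ∑ n ∈ Finset.range (N + K), a (n + 1) =
      ∑ n ∈ Finset.range N, a (n + 1) + ∑ n ∈ Finset.range K, a (N + n + 1) :=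
    Finset.sum_range_add _ _ _
  rw [hs, e1]
  have e4 : ∑ n ∈ Finset.range N, a (n + K + 1) - ∑ n ∈ Finset.range N, a (n + 1) =
      ∑ n ∈ Finset.range K, a (N + n + 1) - ∑ n ∈ Finset.range K, a (n + 1) := by
    rw [add_comm K N] at e2
    linarith
  rw [e4]
  have b1 : |∑ n ∈ Finset.range K, a (N + n + 1)| ≤ K := by
    refine (Finset.abs_sum_le_sum_abs _ _).trans ((Finset.sum_le_sum fun n _ => h _).trans ?_)
    simp
  have b2 : |∑ n ∈ Finset.range K, a (n + 1)| ≤ K := by
    refine (Finset.abs_sum_le_sum_abs _ _).trans ((Finset.sum_le_sum fun n _ => h _).trans ?_)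
    simp
  refine (abs_sub _ _).trans ?_
  linarith

/-- all shifts of the weight are uncorrelated with all the shifted products -/
def VanK (w : ℕ → ℝ) (f : ℕ → ℤˣ) : Prop :=
  ∀ (H : Finset ℕ) (K : ℕ), H.Nonempty →
    Tendsto (fun N => CA (fun n => w (n + K) * prodSeq f H n) N) atTop (𝓝 0)

lemma tendsto_dC_mono {w : ℕ → ℝ} (hw : ∀ n, |w n| ≤ 1) {f : ℕ → ℤˣ}
    (h : VanK w f) (e : ℤ →₀ ℕ) :
    Tendsto (fun N => dC w f N (mono e)) atTop (𝓝 0) := by
  set K : ℕ := e.support.sup Int.natAbs + 1 with hK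
  have hKi : ∀ i ∈ e.support, 0 < i + K := by
    intro i hi
    have h1 : i.natAbs ≤ e.support.sup Int.natAbs := Finset.le_sup (f := Int.natAbs) hi
    omega
  set u : ℕ → ℝ := fun n => mono e (fun i => xf f (i + n)) with hu
  have hu1 : ∀ n, |u n| ≤ 1 := fun n => abs_mono_le _ _
  set T := e.support.filter (fun i => Odd (e i)) with hT
  set H : Finset ℕ := T.image fun i : ℤ => (i + (K : ℤ)).toNat with hH
  have hprod : ∀ n, u (n + K) = prodSeq f H n := by
    intro n
    have h1 : u (n + K) = ∏ i ∈ T, sg (f (n + (i + K).toNat)) := by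
      rw [hu, hT]
      show mono e (fun i => xf f (i + ((n + K : ℕ) : ℤ))) = _
      unfold mono Finsupp.prod
      rw [Finset.prod_filter]
      refine Finset.prod_congr rfl fun i hi => ?_
      have h2 := hKi i hi
      have h3 : 0 < i + ((n + K : ℕ) : ℤ) := by push_cast; omega
      have h4 : (i + ((n + K : ℕ) : ℤ)).toNat = n + (i + K).toNat := by omega
      show ((xf f (i + ((n + K : ℕ) : ℤ)) : SignType) : ℝ) ^ (e i) = _
      unfold xf
      rw [if_pos h3, h4, cast_sign, sg_pow]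
    rw [h1, hH]
    unfold prodSeq
    rw [Finset.prod_image]
    intro i hi j hj hij
    have h2 := hKi i (Finset.mem_filter.mp hi).1
    have h3 := hKi j (Finset.mem_filter.mp hj).1
    have hij' : (i + K).toNat = (j + K).toNat := hij
    omega
  have hwu : ∀ n, |w n * u n| ≤ 1 := by
    intro n
    rw [abs_mul]
    exact mul_le_one₀ (hw n) (abs_nonneg _) (hu1 n)
  have hshift := tendsto_CA_shift hwu K
  have hfun : ∀ N, CA (fun n => (fun n => w n * u n) (n + K)) N =
      CA (fun n => w (n + K) * prodSeq f H n) N := by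
    intro N
    congr 1
    funext n
    show w (n + K) * u (n + K) = _
    rw [hprod]
  have hmu : ∀ N, muC w f N (mono e) = CA (fun n => w n * u n) N := fun N => rfl
  have hlim : Tendsto (fun N => CA (fun n => w (n + K) * prodSeq f H n) N - CA w N * EE (mono e))
      atTop (𝓝 0) := by
    by_cases hne : T.Nonempty
    · obtain ⟨i, hi⟩ := hne
      rw [EE_mono_odd (Finset.mem_filter.mp hi).2]
      have h5 := h H K ((Finset.image_nonempty).mpr ⟨i, hi⟩)
      refine h5.congr fun N => ?_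
      rw [mul_zero, sub_zero]
    · rw [Finset.not_nonempty_iff_eq_empty] at hne
      have he : ∀ i, ¬ Odd (e i) := by
        intro i hodd
        have : i ∈ T := by
          rw [hT, Finset.mem_filter, Finsupp.mem_support_iff]
          refine ⟨?_, hodd⟩
          intro h0
          rw [h0] at hodd
          exact absurd hodd (by decide)
        rw [hne] at this
        exact absurd this (Finset.notMem_empty i)
      rw [EE_mono_even he]
      refine (tendsto_CA_shift hw K).congr fun N => ?_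
      rw [mul_one]
      congr 2
      funext n
      rw [hH, hne]
      unfold prodSeq
      simp
  have h3 := hlim.sub hshift
  rw [sub_zero] at h3
  refine h3.congr fun N => ?_
  unfold dC
  rw [hfun, hmu]
  ring

lemma muC_add (w : ℕ → ℝ) (f : ℕ → ℤˣ) (N : ℕ) (F G : (ℤ → SignType) → ℝ) :
    muC w f N (fun x => F x + G x) = muC w f N F + muC w f N G := by
  rw [muC_eq_CA, muC_eq_CA, muC_eq_CA, ← CA_add]
  congr 1
  funext n
  ring

lemma muC_const_mul (w : ℕ → ℝ) (f : ℕ → ℤˣ) (N : ℕ) (c : ℝ) (F : (ℤ → SignType) → ℝ) :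
    muC w f N (fun x => c * F x) = c * muC w f N F := by
  rw [muC_eq_CA, muC_eq_CA, ← CA_const_mul]
  congr 1
  funext n
  ring

/-- The natural averages along the orbit of `f` are those of the fair coin and are independent of
the weight. -/
theorem indep_of_vanK {w : ℕ → ℝ} (hw : ∀ n, |w n| ≤ 1) {f : ℕ → ℤˣ} (h : VanK w f) :
    ∀ F : (ℤ → SignType) → ℝ, Continuous F → Tendsto (fun N => dC w f N F) atTop (𝓝 0) := by
  set A : Subalgebra ℝ C(ℤ → SignType, ℝ) := Algebra.adjoin ℝ (Set.range P4a7640.cc) with hA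
  have hsep : A.SeparatesPoints := by
    intro x y hxy
    obtain ⟨i, hi⟩ := Function.ne_iff.mp hxy
    refine ⟨P4a7640.cc i, ⟨P4a7640.cc i, Algebra.subset_adjoin ⟨i, rfl⟩, rfl⟩, ?_⟩
    show ((x i : SignType) : ℝ) ≠ ((y i : SignType) : ℝ)
    intro h1
    apply hi
    revert h1
    generalize x i = a
    generalize y i = b
    cases a <;> cases b <;> simp <;> norm_num
  have hmon : ∀ G ∈ Submonoid.closure (Set.range P4a7640.cc), ∃ e : ℤ →₀ ℕ, ∀ x, G x = mono e x := by
    intro G hG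
    induction hG using Submonoid.closure_induction with
    | mem G hG =>
      obtain ⟨i, rfl⟩ := hG
      refine ⟨Finsupp.single i 1, fun x => ?_⟩
      unfold mono
      rw [Finsupp.prod_single_index (h := fun i k => ((x i : SignType) : ℝ) ^ k) (pow_zero _),
        pow_one]
      rfl
    | one =>
      refine ⟨0, fun x => ?_⟩
      unfold mono
      rw [Finsupp.prod_zero_index]
      rfl
    | mul G G' _ _ ih ih' =>
      obtain ⟨e, he⟩ := ih
      obtain ⟨d, hd⟩ := ih'
      refine ⟨e + d, fun x => ?_⟩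
      rw [mono_add, ← he, ← hd]
      rfl
  have hAlg : ∀ G ∈ A, Tendsto (fun N => dC w f N G) atTop (𝓝 0) := by
    intro G hG
    rw [hA, ← Subalgebra.mem_toSubmodule, Algebra.adjoin_eq_span] at hG
    induction hG using Submodule.span_induction with
    | mem G hG =>
      obtain ⟨e, he⟩ := hmon G hG
      have : (G : (ℤ → SignType) → ℝ) = mono e := funext he
      rw [this]
      exact tendsto_dC_mono hw h e
    | zero =>
      have h1 : ((0 : C(ℤ → SignType, ℝ)) : (ℤ → SignType) → ℝ) = fun _ => 0 := rfl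
      rw [h1]
      have h2 : EE (fun _ => 0) = 0 := by
        unfold EE
        simp
      have h3 : ∀ N, dC w f N (fun _ => 0) = 0 := by
        intro N
        unfold dC muC
        rw [h2]
        simp
      simp only [h3]
      exact tendsto_const_nhds
    | add G G' _ _ ih ih' =>
      have h1 : ((G + G' : C(ℤ → SignType, ℝ)) : (ℤ → SignType) → ℝ) = fun x => G x + G' x := rfl
      have h2 := ih.add ih'
      rw [add_zero] at h2
      refine h2.congr fun N => ?_
      unfold dC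
      rw [h1, EE_add G.continuous G'.continuous, muC_add]
      ring
    | smul c G _ ih =>
      have h1 : ((c • G : C(ℤ → SignType, ℝ)) : (ℤ → SignType) → ℝ) = fun x => c * G x := rfl
      have h2 := ih.const_mul c
      rw [mul_zero] at h2
      refine h2.congr fun N => ?_
      unfold dC
      rw [h1, EE_const_mul, muC_const_mul]
      ring
  intro F hF
  rw [Metric.tendsto_nhds]
  intro ε hε
  obtain ⟨⟨G, hG⟩, hGF⟩ := ContinuousMap.exists_mem_subalgebra_near_continuousMap_of_separatesPoints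
    A hsep ⟨F, hF⟩ (ε / 8) (by positivity)
  have hclose : ∀ x, |G x - F x| ≤ ε / 8 := by
    intro x
    have h1 := ContinuousMap.norm_coe_le_norm (G - (⟨F, hF⟩ : C(ℤ → SignType, ℝ))) x
    have h2 : (G - (⟨F, hF⟩ : C(ℤ → SignType, ℝ))) x = G x - F x := rfl
    rw [h2, Real.norm_eq_abs] at h1
    exact h1.trans hGF.le
  have hEE : |EE G - EE F| ≤ ε / 8 := by
    have h1 : EE G - EE F = EE (fun x => G x - F x) := by
      unfold EE
      rw [← integral_sub (integrable_comp G.continuous) (integrable_comp hF)]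
    rw [h1]
    unfold EE
    have h2 := norm_integral_le_of_norm_le_const (μ := Measure.infinitePi (fun _ : ℤ => coin))
      (f := fun ω : ℤ → ℤˣ => G (fun i => SignType.sign ((ω i : ℤˣ) : ℤ)) -
        F (fun i => SignType.sign ((ω i : ℤˣ) : ℤ))) (C := ε / 8)
      (Eventually.of_forall fun ω => by
        rw [Real.norm_eq_abs]
        exact hclose _)
    simpa using h2
  have hG' := Metric.tendsto_nhds.mp (hAlg G hG) (ε / 4) (by positivity)
  filter_upwards [hG'] with N h2
  rw [Real.dist_eq, sub_zero] at h2 ⊢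
  have h3 : |muC w f N G - muC w f N F| ≤ ε / 8 := by
    have h4 : muC w f N G - muC w f N F = CA (fun n => w n * (G (fun i => xf f (i + n)) -
        F (fun i => xf f (i + n)))) N := by
      unfold muC CA
      rw [← sub_div, ← Finset.sum_sub_distrib]
      congr 1
      refine Finset.sum_congr rfl fun n _ => ?_
      show _ = w n * (G (fun i => xf f (i + n)) - F (fun i => xf f (i + n)))
      ring
    rw [h4]
    refine abs_CA_le (by positivity) (fun n => ?_) N
    rw [abs_mul]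
    calc |w n| * |G (fun i => xf f (i + n)) - F (fun i => xf f (i + n))| ≤ 1 * (ε / 8) :=
          mul_le_mul (hw n) (hclose _) (abs_nonneg _) zero_le_one
      _ = ε / 8 := one_mul _
  have h6 : |CA w N| ≤ 1 := abs_CA_le zero_le_one hw N
  have h7 : |CA w N * (EE G - EE F)| ≤ 1 * (ε / 8) := by
    rw [abs_mul]
    exact mul_le_mul h6 hEE (abs_nonneg _) (by norm_num)
  have h4 : dC w f N F = dC w f N G - (muC w f N G - muC w f N F) +
      CA w N * (EE G - EE F) := by
    unfold dC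
    ring
  rw [h4]
  calc |dC w f N G - (muC w f N G - muC w f N F) + CA w N * (EE G - EE F)|
      ≤ |dC w f N G - (muC w f N G - muC w f N F)| + |CA w N * (EE G - EE F)| := abs_add_le _ _
    _ ≤ |dC w f N G| + |muC w f N G - muC w f N F| + |CA w N * (EE G - EE F)| := by
        gcongr
        exact abs_sub _ _
    _ < ε := by linarith

/-- a weight bounded by `C` -/
lemma indep_of_vanK' {w : ℕ → ℝ} {C : ℝ} (hw : ∀ n, |w n| ≤ C) {f : ℕ → ℤˣ}
    (h : ∀ (H : Finset ℕ) (K : ℕ), H.Nonempty →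
      Tendsto (fun N : ℕ => (∑ n ∈ Finset.Icc 1 N, w (n + K) * prodSeq f H n) / N) atTop (𝓝 0))
    (F : (ℤ → SignType) → ℝ) (hF : Continuous F) :
    Tendsto (fun N => dC w f N F) atTop (𝓝 0) := by
  have hC0 : 0 < |C| + 1 := by positivity
  have h1 : VanK (fun n => w n / (|C| + 1)) f := by
    intro H K hH
    have h2 := (h H K hH).const_mul (|C| + 1)⁻¹
    rw [mul_zero] at h2
    refine h2.congr fun N => ?_
    unfold CA
    rw [← mul_div_assoc, Finset.mul_sum]
    congr 1
    refine Finset.sum_congr rfl fun n _ => ?_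
    show (|C| + 1)⁻¹ * (w (n + K) * prodSeq f H n) = w (n + K) / (|C| + 1) * prodSeq f H n
    rw [div_eq_inv_mul]
    ring
  have h2 := (indep_of_vanK (abs_div_le_one hw) h1 F hF).const_mul (|C| + 1)
  rw [mul_zero] at h2
  refine h2.congr fun N => ?_
  have e1 : CA (fun n => w n / (|C| + 1)) N = (|C| + 1)⁻¹ * CA w N := by
    rw [← CA_const_mul]
    congr 1
    funext n
    rw [div_eq_inv_mul]
  have e2 : muC (fun n => w n / (|C| + 1)) f N F = (|C| + 1)⁻¹ * muC w f N F := by
    rw [muC_eq_CA, muC_eq_CA, ← CA_const_mul]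
    congr 1
    funext n
    rw [div_eq_inv_mul]
    ring
  unfold dC
  rw [e1, e2]
  field_simp

/-- the slow class: the natural averages along the orbit are those of the fair coin and are
independent of the weight -/
theorem ces_sys {a : ℕ → ℝ}
    (hsep : ∀ p q : ℕ, p.Prime → q.Prime → p ≠ q → 1 ≤ |a p - a q|) (g : ℕ → ℤˣ) {w : ℕ → ℝ} {C : ℝ}
    (hw : ∀ n, |w n| ≤ C) :
    ∀ᵐ α : ℝ, ∀ (k : ℕ) (A : Set ℝ), P4a7640Y.KInt k A → 0 < P4a7640Y.dl A →
      ∀ f : ℕ → ℤˣ, MultS f → SlowC f (fun p => g p * P4a7640K.xr (fun _ => A) a α p) →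
      ∀ F : (ℤ → SignType) → ℝ, Continuous F → Tendsto (fun N => dC w f N F) atTop (𝓝 0) := by
  have h1 : ∀ᵐ α : ℝ, ∀ K : ℕ, ∀ (k : ℕ) (A : Set ℝ), P4a7640Y.KInt k A → 0 < P4a7640Y.dl A →
      ∀ f : ℕ → ℤˣ, MultS f → SlowC f (fun p => g p * P4a7640K.xr (fun _ => A) a α p) →
      ∀ H : Finset ℕ, H.Nonempty →
        Tendsto (fun N : ℕ => (∑ n ∈ Finset.Icc 1 N, w (n + K) * prodSeq f H n) / N) atTop (𝓝 0) := by
    rw [ae_all_iff]
    intro K
    exact ces_main hsep g (w := fun n => w (n + K)) (C := C) fun n => hw _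
  filter_upwards [h1] with α h k A hA hd f hf hfs F hF
  exact indep_of_vanK' hw (fun H K hH => h K k A hA hd f hf hfs H hH) F hF

/-- a sequence of sets -/
theorem ces_sys_seq (k : ℕ) {K κ : ℝ} (hK : 0 < K) (hκ : 0 < κ) (hκ1 : κ ≤ 1) {a : ℕ → ℝ}
    (ha0 : ∀ p, 0 ≤ a p) (ha : P4a7640K.Cnt K κ a) {δ : ℝ} (hδ : 0 < δ) {A : ℕ → Set ℝ}
    (hA : ∀ p, P4a7640Y.KInt k (A p)) (hAδ : ∀ p, δ ≤ P4a7640Y.dl (A p)) (g : ℕ → ℤˣ)
    {w : ℕ → ℝ} {C : ℝ} (hw : ∀ n, |w n| ≤ C) :
    ∀ᵐ α : ℝ, ∀ f : ℕ → ℤˣ, MultS f → SlowC f (fun p => g p * P4a7640K.xr A a α p) →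
      ∀ F : (ℤ → SignType) → ℝ, Continuous F → Tendsto (fun N => dC w f N F) atTop (𝓝 0) := by
  have h1 : ∀ᵐ α : ℝ, ∀ K : ℕ, ∀ f : ℕ → ℤˣ, MultS f →
      SlowC f (fun p => g p * P4a7640K.xr A a α p) → ∀ H : Finset ℕ, H.Nonempty →
        Tendsto (fun N : ℕ => (∑ n ∈ Finset.Icc 1 N, w (n + K) * prodSeq f H n) / N) atTop (𝓝 0) := by
    rw [ae_all_iff]
    intro K
    exact cesaro_seq k hK hκ hκ1 ha0 ha hδ hA hAδ g (w := fun n => w (n + K)) (C := C) fun n => hw _
  filter_upwards [h1] with α h f hf hfs F hF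
  exact indep_of_vanK' hw (fun H K hH => h K f hf hfs H hH) F hF

end Pool.Agent.Lib.P4a7640Ces
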